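import Pool.Agent.K9h35.SG.Low

set_option autoImplicit false
set_option linter.unusedSectionVars false

open scoped Matrix InnerProductSpace

/-! Comparison of resolutions of a one-dimensional module. -/

namespace Pool.Agent.K9h35.SG

open Pool.Agent.W649.ZL Pool.Agent.N309.LO Pool.Agent.N309.PD

universe u v w z y

section
variable {G : Type u} [Group G]
variable {J : Type v} [Fintype J] [DecidableEq J] {L : Type w} [Fintype L] [DecidableEq L]
  {M : Type z} [Fintype M] [DecidableEq M]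

theorem exists_rows (A : Matrix L J (MonoidAlgebra ℂ G)) (R : Matrix M J (MonoidAlgebra ℂ G))
    (h : ∀ m, ∃ y, y ᵥ* A = R m) : ∃ g : Matrix M L (MonoidAlgebra ℂ G), g * A = R := by
  choose g hg using h
  exact ⟨g, funext hg⟩

theorem phi_mul {φ : (J → MonoidAlgebra ℂ G) →ₗ[ℂ] ℂ} (χ : G →* ℂ)
    (hχ : ∀ (g : G) x, φ (gsm g x) = χ g * φ x) (α : MonoidAlgebra ℂ G)
    (v : J → MonoidAlgebra ℂ G) : φ (fun j => α * v j) = chi χ α * φ v := by
  induction α using MonoidAlgebra.induction_linear with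
  | zero =>
    have e : (fun j => (0 : MonoidAlgebra ℂ G) * v j) = 0 := by
      funext j
      exact zero_mul _
    rw [e, map_zero, map_zero, zero_mul]
  | add a b ha hb =>
    have e : (fun j => (a + b) * v j) = (fun j => a * v j) + fun j => b * v j := by
      funext j
      exact add_mul _ _ _
    rw [e, map_add, ha, hb, map_add, add_mul]
  | single g c =>
    have e : (fun j => MonoidAlgebra.single g c * v j) = c • gsm g v := by
      funext j
      change _ = c • (MonoidAlgebra.single g 1 * v j)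
      rw [← smul_mul_assoc, MonoidAlgebra.smul_single, smul_eq_mul, mul_one]
    rw [e, map_smul, hχ, chi_single, smul_eq_mul, mul_assoc]

theorem phi_vecMul {φ : (J → MonoidAlgebra ℂ G) →ₗ[ℂ] ℂ} (χ : G →* ℂ)
    (hχ : ∀ (g : G) x, φ (gsm g x) = χ g * φ x) (x : L → MonoidAlgebra ℂ G)
    (A : Matrix L J (MonoidAlgebra ℂ G)) : φ (x ᵥ* A) = ∑ l, chi χ (x l) * φ (A l) := by
  have e : x ᵥ* A = ∑ l, fun j => x l * A l j := by
    funext j
    rw [Finset.sum_apply]
    rfl
  rw [e, map_sum]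
  exact Finset.sum_congr rfl fun l _ => phi_mul χ hχ _ _

end

section
variable {G : Type u} [Group G]
variable {J : ℕ → Type v} [∀ i, Fintype (J i)] [∀ i, DecidableEq (J i)]
  {J' : ℕ → Type w} [∀ i, Fintype (J' i)] [∀ i, DecidableEq (J' i)]

/-- chain maps -/
theorem exists_map {m : ℕ} (D : ∀ i, Matrix (J (i + 1)) (J i) (MonoidAlgebra ℂ G))
    (φ : (J 0 → MonoidAlgebra ℂ G) →ₗ[ℂ] ℂ) (hD : IsRes D φ m)
    (D' : ∀ i, Matrix (J' (i + 1)) (J' i) (MonoidAlgebra ℂ G))
    (φ' : (J' 0 → MonoidAlgebra ℂ G) →ₗ[ℂ] ℂ) (hD' : IsRes D' φ' m) (χ : G →* ℂ)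
    (hχ : ∀ (g : G) x, φ (gsm g x) = χ g * φ x) (hχ' : ∀ (g : G) x, φ' (gsm g x) = χ g * φ' x) :
    ∃ f : ∀ i, Matrix (J i) (J' i) (MonoidAlgebra ℂ G), (∀ x, φ' (x ᵥ* f 0) = φ x) ∧
      ∀ i ≤ m, f (i + 1) * D' i = D i * f i := by
  have key : ∀ N ≤ m + 1, ∃ f : ∀ i, Matrix (J i) (J' i) (MonoidAlgebra ℂ G),
      (∀ x, φ' (x ᵥ* f 0) = φ x) ∧ ∀ i < N, f (i + 1) * D' i = D i * f i := by
    intro N
    induction N with
    | zero =>
      intro _
      obtain ⟨x1, hx1⟩ : ∃ x, φ' x ≠ 0 := by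
        by_contra hcon
        push Not at hcon
        exact hD'.ne (LinearMap.ext hcon)
      refine ⟨fun i => match i with
        | 0 => fun j => (φ (Pi.single j 1) / φ' x1) • x1
        | _ + 1 => 0, ?_, fun i hi => absurd hi (Nat.not_lt_zero i)⟩
      intro x
      rw [phi_vecMul χ hχ', phi_eq χ hχ x]
      refine Finset.sum_congr rfl fun j _ => ?_
      rw [map_smul, smul_eq_mul, div_mul_cancel₀ _ hx1]
    | succ N ih =>
      intro hN
      obtain ⟨f, hf0, hf⟩ := ih (by omega)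
      obtain ⟨g, hg⟩ := exists_rows (D' N) (D N * f N) (by
        intro k
        change ∃ y, y ᵥ* D' N = D N k ᵥ* f N
        rcases Nat.eq_zero_or_pos N with h | h
        · subst h
          rw [hD'.aug, hf0]
          refine (hD.aug _).1 ⟨Pi.single k 1, ?_⟩
          rw [Matrix.single_one_vecMul]
          rfl
        · obtain ⟨N', rfl⟩ : ∃ N', N = N' + 1 := ⟨N - 1, by omega⟩
          apply hD'.exact N' (by omega)
          rw [Matrix.vecMul_vecMul, hf N' (by omega), ← Matrix.vecMul_vecMul]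
          have e : D (N' + 1) k ᵥ* D N' = 0 := congrFun (hD.comp N') k
          rw [e, Matrix.zero_vecMul])
      refine ⟨Function.update f (N + 1) g, ?_, ?_⟩
      · intro x
        rw [Function.update_of_ne (by omega)]
        exact hf0 x
      · intro i hi
        rcases Nat.lt_or_ge i N with h | h
        · rw [Function.update_of_ne (by omega), Function.update_of_ne (by omega)]
          exact hf i h
        · obtain rfl : i = N := by omega
          rw [Function.update_self, Function.update_of_ne (by omega)]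
          exact hg
  obtain ⟨f, hf0, hf⟩ := key (m + 1) le_rfl
  exact ⟨f, hf0, fun i hi => hf i (by omega)⟩

/-- chain homotopies -/
theorem exists_htpy {m : ℕ} (D : ∀ i, Matrix (J (i + 1)) (J i) (MonoidAlgebra ℂ G))
    (φ : (J 0 → MonoidAlgebra ℂ G) →ₗ[ℂ] ℂ) (hD : IsRes D φ m)
    (q : ∀ i, Matrix (J i) (J i) (MonoidAlgebra ℂ G)) (hq0 : ∀ x, φ (x ᵥ* q 0) = 0)
    (hq : ∀ i ≤ m, q (i + 1) * D i = D i * q i) :
    ∃ h : ∀ i, Matrix (J i) (J (i + 1)) (MonoidAlgebra ℂ G), q 0 = h 0 * D 0 ∧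
      ∀ i < m, q (i + 1) = h (i + 1) * D (i + 1) + D i * h i := by
  have key : ∀ N ≤ m, ∃ h : ∀ i, Matrix (J i) (J (i + 1)) (MonoidAlgebra ℂ G), q 0 = h 0 * D 0 ∧
      ∀ i < N, q (i + 1) = h (i + 1) * D (i + 1) + D i * h i := by
    intro N
    induction N with
    | zero =>
      intro _
      obtain ⟨g, hg⟩ := exists_rows (D 0) (q 0) (by
        intro k
        rw [hD.aug]
        have h1 := hq0 (Pi.single k 1)
        rw [Matrix.single_one_vecMul] at h1
        exact h1)
      refine ⟨fun i => match i with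
        | 0 => g
        | _ + 1 => 0, hg.symm, fun i hi => absurd hi (Nat.not_lt_zero i)⟩
    | succ N ih =>
      intro hN
      obtain ⟨h, h0, hh⟩ := ih (by omega)
      obtain ⟨g, hg⟩ := exists_rows (D (N + 1)) (q (N + 1) - D N * h N) (by
        intro k
        apply hD.exact N (by omega)
        have e : (q (N + 1) - D N * h N) * D N = 0 := by
          rw [Matrix.sub_mul, hq N (by omega), Matrix.mul_assoc, ← Matrix.mul_sub]
          rcases Nat.eq_zero_or_pos N with h' | h'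
          · subst h'
            rw [h0, sub_self, Matrix.mul_zero]
          · obtain ⟨N', rfl⟩ : ∃ N', N = N' + 1 := ⟨N - 1, by omega⟩
            rw [hh N' (by omega), add_sub_cancel_left, ← Matrix.mul_assoc, hD.comp N',
              Matrix.zero_mul]
        exact congrFun e k)
      refine ⟨Function.update h (N + 1) g, ?_, ?_⟩
      · rw [Function.update_of_ne (by omega)]
        exact h0
      · intro i hi
        rcases Nat.lt_or_ge i N with h' | h'
        · rw [Function.update_of_ne (by omega), Function.update_of_ne (by omega)]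
          exact hh i h'
        · obtain rfl : i = N := by omega
          rw [Function.update_self, Function.update_of_ne (by omega), hg, sub_add_cancel]
  exact key m le_rfl

theorem closure_map {J1 : Type*} [Fintype J1] [DecidableEq J1] {J2 : Type*} [Fintype J2]
    [DecidableEq J2] {J3 : Type*} [Fintype J3] [DecidableEq J3] {J4 : Type*} [Fintype J4]
    [DecidableEq J4] (A : EE G J1 →L[ℂ] EE G J2) (B : EE G J3 →L[ℂ] EE G J4)
    (f : EE G J2 →L[ℂ] EE G J4) (h : ∀ F, f (A F) ∈ LinearMap.range (B : EE G J3 →ₗ[ℂ] EE G J4))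
    {F : EE G J2}
    (hF : F ∈ (LinearMap.range (A : EE G J1 →ₗ[ℂ] EE G J2)).topologicalClosure) :
    f F ∈ (LinearMap.range (B : EE G J3 →ₗ[ℂ] EE G J4)).topologicalClosure := by
  have hle : (LinearMap.range (A : EE G J1 →ₗ[ℂ] EE G J2)).topologicalClosure ≤
      ((LinearMap.range (B : EE G J3 →ₗ[ℂ] EE G J4)).topologicalClosure).comap
        (f : EE G J2 →ₗ[ℂ] EE G J4) := by
    apply Submodule.topologicalClosure_minimal
    · rintro _ ⟨F', rfl⟩
      exact Submodule.le_topologicalClosure _ (h F')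
    · exact (Submodule.isClosed_topologicalClosure _).preimage f.continuous
  exact hle hF

/-- cocycles orthogonal to the harmonic cochains are in the closure of the coboundaries -/
theorem mem_closure_of {J1 : Type*} [Fintype J1] [DecidableEq J1] {J2 : Type*} [Fintype J2]
    [DecidableEq J2] {J3 : Type*} [Fintype J3] [DecidableEq J3] (A : EE G J1 →L[ℂ] EE G J2)
    (D : EE G J2 →L[ℂ] EE G J3) (hDA : ∀ F, D (A F) = 0) {F : EE G J2} (hF : D F = 0)
    (h : ∀ w ∈ harm D A, ⟪F, w⟫_ℂ = 0) :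
    F ∈ (LinearMap.range (A : EE G J1 →ₗ[ℂ] EE G J2)).topologicalClosure := by
  set C := (LinearMap.range (A : EE G J1 →ₗ[ℂ] EE G J2)).topologicalClosure with hC
  have hCc : IsClosed (C : Set (EE G J2)) := Submodule.isClosed_topologicalClosure _
  have hle : C ≤ LinearMap.ker (D : EE G J2 →ₗ[ℂ] EE G J3) := by
    apply Submodule.topologicalClosure_minimal _ _ (ContinuousLinearMap.isClosed_ker D)
    rintro _ ⟨F', rfl⟩
    exact hDA F'
  have hp : proj C F ∈ C := proj_mem hCc F
  have h1 : F - proj C F ∈ harm D A := by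
    refine ⟨Submodule.sub_mem _ hF (hle hp), ?_⟩
    change F - proj C F ∈ (LinearMap.range (A : EE G J1 →ₗ[ℂ] EE G J2))ᗮ
    rw [Submodule.mem_orthogonal]
    intro v hv
    have h2 := proj_inner F v (Submodule.le_topologicalClosure _ hv : v ∈ C)
    rw [← inner_conj_symm, h2, map_zero]
  have h3 : ⟪F - proj C F, F - proj C F⟫_ℂ = 0 := by
    rw [inner_sub_left]
    have h4 := h _ h1
    have h5 := proj_inner F (proj C F) hp
    have h6 : ⟪proj C F, F - proj C F⟫_ℂ = 0 := by
      rw [← inner_conj_symm, h5, map_zero]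
    rw [h4, h6, sub_zero]
  have h7 := inner_self_eq_zero.1 h3
  rw [sub_eq_zero] at h7
  rw [h7]
  exact hp

theorem harm_le_of {J1 : Type*} [Fintype J1] [DecidableEq J1] {J2 : Type*} [Fintype J2]
    [DecidableEq J2] {J3 : Type*} [Fintype J3] [DecidableEq J3] {I1 : Type*} [Fintype I1]
    [DecidableEq I1] {I2 : Type*} [Fintype I2]
    [DecidableEq I2] {I3 : Type*} [Fintype I3] [DecidableEq I3]
    (A : EE G J1 →L[ℂ] EE G J2) (D : EE G J2 →L[ℂ] EE G J3)
    (A' : EE G I1 →L[ℂ] EE G I2) (D' : EE G I2 →L[ℂ] EE G I3) (hA : Eqv A) (hD : Eqv D)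
    (hA' : Eqv A') (hD' : Eqv D')
    (hDA' : ∀ F, D' (A' F) = 0) (f : EE G I2 →L[ℂ] EE G J2) (g : EE G J2 →L[ℂ] EE G I2)
    (hg : Eqv g)
    (hfA : ∀ F, f (A' F) ∈ LinearMap.range (A : EE G J1 →ₗ[ℂ] EE G J2))
    (hgD : ∀ F, D F = 0 → D' (g F) = 0)
    (hfg : ∀ F, D F = 0 → F - f (g F) ∈ LinearMap.range (A : EE G J1 →ₗ[ℂ] EE G J2)) :
    vd (harm D A) ≤ vd (harm D' A') := by
  set H' := harm D' A' with hH'
  have hH'c : IsClosed (H' : Set (EE G I2)) := harm_closed D' A'
  set T : EE G J2 →L[ℂ] EE G I2 := (proj H').comp g with hT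
  have hTe : Eqv T := by
    intro k F
    change proj H' (g (tr k F)) = tr k (proj H' (g F))
    rw [hg k F]
    exact proj_tr (Inv.topologicalClosure (harm_inv D' A' hD' hA')) k (g F)
  have h1 := rank_nullity T hTe (harm_inv D A hD hA) (harm_closed D A)
  have h2 : harm D A ⊓ LinearMap.ker (T : EE G J2 →ₗ[ℂ] EE G I2) = ⊥ := by
    rw [eq_bot_iff]
    rintro F ⟨hF, hF'⟩
    rw [Submodule.mem_bot]
    have hDF : D F = 0 := hF.1
    have h3 : proj H' (g F) = 0 := hF'
    have h4 : g F ∈ (LinearMap.range (A' : EE G I1 →ₗ[ℂ] EE G I2)).topologicalClosure := by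
      apply mem_closure_of A' D' hDA' (hgD F hDF)
      intro w hw
      have h5 := proj_inner (g F) w hw
      rw [h3, sub_zero] at h5
      exact h5
    have h5 := closure_map A' A f hfA h4
    have h6 : F ∈ (LinearMap.range (A : EE G J1 →ₗ[ℂ] EE G J2)).topologicalClosure := by
      have e : F = f (g F) + (F - f (g F)) := by abel
      rw [e]
      exact Submodule.add_mem _ h5 (Submodule.le_topologicalClosure _ (hfg F hDF))
    have h7 : F ∈ (LinearMap.range (A : EE G J1 →ₗ[ℂ] EE G J2)).topologicalClosureᗮ := by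
      rw [Submodule.orthogonal_closure]
      exact hF.2
    exact inner_self_eq_zero.1 ((Submodule.mem_orthogonal _ _).1 h7 F h6)
  rw [h2, vd_bot, zero_add] at h1
  rw [h1]
  apply vd_mono
  rintro _ ⟨F, _, rfl⟩
  exact proj_mem hH'c (g F)

theorem ker_le_of {J2 : Type*} [Fintype J2] [DecidableEq J2] {J3 : Type*} [Fintype J3]
    [DecidableEq J3] {I2 : Type*} [Fintype I2]
    [DecidableEq I2] {I3 : Type*} [Fintype I3] [DecidableEq I3]
    (D : EE G J2 →L[ℂ] EE G J3) (D' : EE G I2 →L[ℂ] EE G I3) (hD : Eqv D)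
    (g : EE G J2 →L[ℂ] EE G I2) (hg : Eqv g) (hgD : ∀ F, D F = 0 → D' (g F) = 0)
    (hinj : ∀ F, D F = 0 → g F = 0 → F = 0) :
    vd (LinearMap.ker (D : EE G J2 →ₗ[ℂ] EE G J3))
      ≤ vd (LinearMap.ker (D' : EE G I2 →ₗ[ℂ] EE G I3)) := by
  have h1 := rank_nullity g hg (inv_ker D hD) (ContinuousLinearMap.isClosed_ker D)
  have h2 : LinearMap.ker (D : EE G J2 →ₗ[ℂ] EE G J3)
      ⊓ LinearMap.ker (g : EE G J2 →ₗ[ℂ] EE G I2) = ⊥ := by
    rw [eq_bot_iff]
    rintro F ⟨hF, hF'⟩
    rw [Submodule.mem_bot]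
    exact hinj F hF hF'
  rw [h2, vd_bot, zero_add] at h1
  rw [h1]
  apply vd_mono
  rintro _ ⟨F, hF, rfl⟩
  exact hgD F hF

/-- the `L²`-Betti numbers do not depend on the resolution -/
theorem transfer {m : ℕ} (D : ∀ i, Matrix (J (i + 1)) (J i) (MonoidAlgebra ℂ G))
    (φ : (J 0 → MonoidAlgebra ℂ G) →ₗ[ℂ] ℂ) (hD : IsRes D φ m)
    (D' : ∀ i, Matrix (J' (i + 1)) (J' i) (MonoidAlgebra ℂ G))
    (φ' : (J' 0 → MonoidAlgebra ℂ G) →ₗ[ℂ] ℂ) (hD' : IsRes D' φ' m) (χ : G →* ℂ)
    (hχ : ∀ (g : G) x, φ (gsm g x) = χ g * φ x) (hχ' : ∀ (g : G) x, φ' (gsm g x) = χ g * φ' x)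
    (i : ℕ) (hi : i ≤ m) : vb D i ≤ vb D' i := by
  obtain ⟨f, hf0, hf⟩ := exists_map D φ hD D' φ' hD' χ hχ hχ'
  obtain ⟨g, hg0, hg⟩ := exists_map D' φ' hD' D φ hD χ hχ' hχ
  obtain ⟨h, h0, hh⟩ := exists_htpy D φ hD (fun i => 1 - f i * g i) (by
    intro x
    rw [Matrix.vecMul_sub, Matrix.vecMul_one, map_sub, ← Matrix.vecMul_vecMul, hg0, hf0,
      sub_self]) (by
    intro i hi
    rw [Matrix.sub_mul, Matrix.mul_sub, Matrix.one_mul, Matrix.mul_one, Matrix.mul_assoc,
      hg i hi, ← Matrix.mul_assoc, hf i hi, Matrix.mul_assoc])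
  cases i with
  | zero =>
    apply ker_le_of (opM (D 0)) (opM (D' 0)) (opM_eqv _) (opM (g 0)) (opM_eqv _)
    · intro F hF
      rw [← opM_mul, ← hg 0 (Nat.zero_le m), opM_mul, hF, map_zero]
    · intro F hF hF'
      have h3 : opM (1 - f 0 * g 0) F = 0 := by
        rw [h0, opM_mul, hF, map_zero]
      rw [opM_sub, opM_one, opM_mul, hF', map_zero, sub_zero] at h3
      exact h3
  | succ i =>
    apply harm_le_of (opM (D i)) (opM (D (i + 1))) (opM (D' i)) (opM (D' (i + 1))) (opM_eqv _)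
      (opM_eqv _) (opM_eqv _) (opM_eqv _) (fun F => by rw [← opM_mul, hD'.comp, opM_zero'])
      (opM (f (i + 1))) (opM (g (i + 1))) (opM_eqv _)
    · intro F'
      refine ⟨opM (f i) F', ?_⟩
      change opM (D i) (opM (f i) F') = opM (f (i + 1)) (opM (D' i) F')
      rw [← opM_mul, ← opM_mul, hf i (by omega)]
    · intro F hF
      rw [← opM_mul, ← hg (i + 1) hi, opM_mul, hF, map_zero]
    · intro F hF
      refine ⟨opM (h i) F, ?_⟩
      change opM (D i) (opM (h i) F) = _
      have h5 := hh i (by omega)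
      have h6 : D i * h i = (1 - f (i + 1) * g (i + 1)) - h (i + 1) * D (i + 1) := by
        rw [h5, add_sub_cancel_left]
      rw [← opM_mul, h6, opM_sub (1 - f (i + 1) * g (i + 1)) (h (i + 1) * D (i + 1)),
        opM_mul (h (i + 1)), hF, map_zero, sub_zero, opM_sub, opM_one, opM_mul]

end

end Pool.Agent.K9h35.SG
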