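import Pool.Agent.K9h35.SG.Twist
import Pool.Agent.Results.MP_984acc_gt.ConnectedPositiveCones

set_option autoImplicit false
set_option linter.unusedSectionVars false

open scoped Matrix InnerProductSpace

/-! The dual complex of a duality complex. -/

namespace Pool.Agent.K9h35.SG

open Pool.Agent.W649.ZL Pool.Agent.N309.LO Pool.Agent.N309.PD
open Pool.Agent.Results.MP_984acc_gt.ConnectedPositiveCones

universe u v w z y

section
variable {G : Type u} [Group G] {r : ℕ → ℕ}

/-- the matrix from degree `b = a + 1` to degree `a` -/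
def DD (D : Matrices G r) (a b : ℕ) (h : a + 1 = b) :
    Matrix (Fin (r b)) (Fin (r a)) (MonoidAlgebra ℂ G) := by
  subst h
  exact D a

/-- the matrices of the dual complex -/
noncomputable def dualD (D : Matrices G r) (n i : ℕ) :
    Matrix (Fin (r (n - (i + 1)))) (Fin (r (n - i))) (MonoidAlgebra ℂ G) :=
  if h : n - (i + 1) + 1 = n - i then adjM (DD D _ _ h) else 0

theorem DD_mul {D : Matrices G r} (hD : ∀ i, D (i + 1) * D i = 0) (a b c : ℕ) (h1 : a + 1 = b)
    (h2 : b + 1 = c) : adjM (DD D a b h1) * adjM (DD D b c h2) = 0 := by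
  subst h1
  subst h2
  exact adjM_mul (D a) (D (a + 1)) (hD a)

theorem DD_exact {D : Matrices G r} {n : ℕ} (hD : ∀ i, i + 1 < n → IsDualExactAt D i) (a b c : ℕ)
    (h1 : a + 1 = b) (h2 : b + 1 = c) (hb : b < n) (x : Fin (r b) → MonoidAlgebra ℂ G)
    (hx : x ᵥ* adjM (DD D b c h2) = 0) : ∃ y, y ᵥ* adjM (DD D a b h1) = x := by
  subst h1
  subst h2
  exact dual_exact (D (a + 1)) (D a) (hD a hb) x hx

/-- the dual complex is a resolution of a one-dimensional module -/
theorem dual_res {D : Matrices G r} {n : ℕ} (hn : 0 < n) (hD : IsDualityComplex n D) {k : ℕ}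
    (hk : k < n) : ∃ φ, IsRes (J := fun i => Fin (r (n - i))) (dualD D n) φ k := by
  obtain ⟨m, rfl⟩ : ∃ m, n = m + 1 := ⟨n - 1, by omega⟩
  obtain ⟨ψ, hψ0, hψ⟩ := hD.coaugmentation m rfl
  have hψ' := dual_aug (D m) ψ hψ
  have e0 : dualD D (m + 1) 0 = adjM (D m) := by
    unfold dualD
    rw [dif_pos (show m + 1 - (0 + 1) + 1 = m + 1 - 0 from rfl)]
    rfl
  refine ⟨dualF ψ, ⟨?_, dualF_ne hψ0, ?_, ?_⟩⟩
  · intro i
    by_cases h1 : m + 1 - (i + 1 + 1) + 1 = m + 1 - (i + 1)
    · by_cases h2 : m + 1 - (i + 1) + 1 = m + 1 - i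
      · unfold dualD
        rw [dif_pos h1, dif_pos h2]
        exact DD_mul hD.comp _ _ _ h1 h2
      · have e : dualD D (m + 1) i = 0 := dif_neg h2
        rw [e, Matrix.mul_zero]
    · have e : dualD D (m + 1) (i + 1) = 0 := dif_neg h1
      rw [e, Matrix.zero_mul]
  · intro x
    rw [← hψ']
    rw [e0]
    rfl
  · intro i hi x hx
    have h1 : m + 1 - (i + 1 + 1) + 1 = m + 1 - (i + 1) := by omega
    have h2 : m + 1 - (i + 1) + 1 = m + 1 - i := by omega
    have e1 : dualD D (m + 1) (i + 1) = adjM (DD D _ _ h1) := dif_pos h1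
    have e2 : dualD D (m + 1) i = adjM (DD D _ _ h2) := dif_pos h2
    rw [e1]
    rw [e2] at hx
    exact DD_exact hD.coexact _ _ _ h1 h2 (by omega) x hx

theorem betti_zero_eq (D : Matrices G r) : betti D 0 = vb (J := fun i => Fin (r i)) D 0 :=
  betti_eq D 0 _ (ContinuousLinearMap.isClosed_ker _) (harmonic_zero D)

theorem betti_succ_eq (D : Matrices G r) (i : ℕ) :
    betti D (i + 1) = vb (J := fun i => Fin (r i)) D (i + 1) :=
  betti_eq D (i + 1) _ (harm_closed _ _) (harmonic_succ D i)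

theorem betti_vb (D : Matrices G r) (i : ℕ) : betti D i = vb (J := fun i => Fin (r i)) D i := by
  cases i with
  | zero => exact betti_zero_eq D
  | succ i => exact betti_succ_eq D i

/-- the highest degree -/
theorem betti_top_le (D : Matrices G r) (a : ℕ) :
    betti D (a + 1) ≤ vd (LinearMap.ker (opM (adjM (D a)) :
      EE G (Fin (r (a + 1))) →ₗ[ℂ] EE G (Fin (r a)))) := by
  rw [betti_eq D (a + 1) _ (harm_closed _ _) (harmonic_succ D a)]
  apply vd_mono
  rintro F ⟨_, hF⟩
  rw [ContinuousLinearMap.orthogonal_range, opM_adj] at hF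
  exact hF

/-- the high degrees -/
theorem betti_dual_eq (D : Matrices G r) (a b c : ℕ) (h1 : a + 1 = b) (h2 : b + 1 = c) :
    betti D b = vd (harm (opM (adjM (DD D a b h1))) (opM (adjM (DD D b c h2)))) := by
  subst h1
  subst h2
  rw [betti_eq D (a + 1) _ (harm_closed _ _) (harmonic_succ D a), harm_dual, opM_adj, opM_adj]
  rfl

theorem dual_vb_zero {D : Matrices G r} {n : ℕ} (hn : 0 < n) :
    betti D n ≤ vb (J := fun i => Fin (r (n - i))) (dualD D n) 0 := by
  obtain ⟨m, rfl⟩ : ∃ m, n = m + 1 := ⟨n - 1, by omega⟩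
  refine (betti_top_le D m).trans (le_of_eq ?_)
  have e0 : dualD D (m + 1) 0 = adjM (D m) := by
    unfold dualD
    rw [dif_pos (show m + 1 - (0 + 1) + 1 = m + 1 - 0 from rfl)]
    rfl
  unfold vb
  rw [e0]

theorem dual_vb_succ {D : Matrices G r} {n i : ℕ} (hi : i + 1 < n) :
    betti D (n - (i + 1)) = vb (J := fun i => Fin (r (n - i))) (dualD D n) (i + 1) := by
  have h4 : n - (i + 1 + 1) + 1 = n - (i + 1) := by omega
  have h5 : n - (i + 1) + 1 = n - i := by omega
  have e1 : dualD D n (i + 1) = adjM (DD D _ _ h4) := dif_pos h4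
  have e2 : dualD D n i = adjM (DD D _ _ h5) := dif_pos h5
  rw [betti_dual_eq D _ _ _ h4 h5]
  change _ = vd (harm (opM (dualD D n (i + 1))) (opM (dualD D n i)))
  rw [e1, e2]

theorem betti_empty {D : Matrices G r} {i : ℕ} (h : r i = 0) : betti D i = 0 := by
  unfold betti
  have : IsEmpty (Fin (r i)) := by rw [h]; exact inferInstance
  exact Finset.sum_of_isEmpty _

theorem betti_nonneg (D : Matrices G r) (i : ℕ) : 0 ≤ betti D i := by
  rw [betti_vb]
  cases i with
  | zero => exact vd_nonneg _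
  | succ i => exact vd_nonneg _

theorem duality_res {D : Matrices G r} {n m : ℕ} (hD : IsDualityComplex n D) :
    ∃ φ, IsRes (J := fun i => Fin (r i)) D φ m := by
  obtain ⟨a, ha0, ha⟩ := hD.augmentation
  refine ⟨augF a, hD.comp, augF_ne a ha0, ?_, fun i _ => hD.exact i⟩
  intro x
  rw [ha, augF_apply]
  simp only [augm_eq]
  rfl

/-- the resolution with the levels -/
theorem aug_res {C : Matrices G r} {m : ℕ} (hC : ∀ i, C (i + 1) * C i = 0)
    (hex : ∀ i < m, IsExactAt C i) (haug : HasAugmentation C) :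
    ∃ φ, IsRes (J := fun i => Fin (r i)) C φ m := by
  obtain ⟨a, ha0, ha⟩ := haug
  refine ⟨augF a, hC, augF_ne a ha0, ?_, hex⟩
  intro x
  rw [ha, augF_apply]
  simp only [augm_eq]
  rfl

section
variable {X : Type y} [MulAction G X] [LinearOrder X] {r' : ℕ → ℕ}

/-- degrees `0` and `n` -/
theorem main_zero (hX : OrdInv G X) (hub : ∀ x y : X, ∃ g : G, x < g • y)
    {n : ℕ} (hn : 0 < n) {D : Matrices G r} (hD : IsDualityComplex n D)
    {C : Matrices G r'} {φ : (Fin (r' 0) → MonoidAlgebra ℂ G) →ₗ[ℂ] ℂ} {m : ℕ}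
    (hC : IsRes (J := fun i => Fin (r' i)) C φ m) (w : Fin (r' 0) → X) :
    betti D 0 = 0 ∧ betti D n = 0 := by
  have hC0 : IsRes (J := fun i => Fin (r' i)) C φ 0 :=
    ⟨hC.comp, hC.ne, hC.aug, fun i hi => absurd hi (Nat.not_lt_zero i)⟩
  obtain ⟨φ1, h1⟩ := duality_res (m := 0) hD
  obtain ⟨φ2, h2⟩ := dual_res hn hD hn
  constructor
  · rw [betti_zero_eq]
    exact all_zero hX hub (J := fun i => Fin (r' i)) C φ hC0 w _ φ1 h1
  · apply le_antisymm _ (betti_nonneg D n)
    refine (dual_vb_zero hn).trans (le_of_eq ?_)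
    exact all_zero hX hub (J := fun i => Fin (r' i)) C φ hC0 w
      (J' := fun i => Fin (r (n - i))) (dualD D n) φ2 h2

/-- degrees `k + 1` and `n - (k + 1)` -/
theorem main_succ (hX : OrdInv G X) (hub : ∀ x y : X, ∃ g : G, x < g • y)
    {n k : ℕ} (hk : k + 1 < n) {D : Matrices G r} (hD : IsDualityComplex n D)
    {C : Matrices G r'} {φ : (Fin (r' 0) → MonoidAlgebra ℂ G) →ₗ[ℂ] ℂ}
    (hC : IsRes (J := fun i => Fin (r' i)) C φ (k + 1)) (w : ∀ i, Fin (r' i) → X)
    (hw : ∀ i, Rl (fun a b => a ≤ b) (w (i + 1)) (w i) (C i))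
    {T : Type*} [Fintype T] [DecidableEq T] (h1 : KGen T (w (k + 1)) (w k) (C k))
    (h2 : GICond (J := fun i => Fin (r' i)) C w k) :
    betti D (k + 1) ≤ Fintype.card T ∧ betti D (n - (k + 1)) ≤ Fintype.card T := by
  obtain ⟨φ1, h3⟩ := duality_res (m := k + 1) hD
  obtain ⟨φ2, h4⟩ := dual_res (by omega) hD hk
  constructor
  · rw [betti_succ_eq]
    exact all_succ hX hub (J := fun i => Fin (r' i)) C φ hC w hw h1 h2 _ φ1 h3
  · rw [dual_vb_succ hk]
    exact all_succ hX hub (J := fun i => Fin (r' i)) C φ hC w hw h1 h2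
      (J' := fun i => Fin (r (n - i))) (dualD D n) φ2 h4

end

end

end Pool.Agent.K9h35.SG
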