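import Pool.Agent.K9h35.SG.Lift

set_option autoImplicit false
set_option linter.unusedSectionVars false

open scoped Matrix

/-! Generalised inverses for free actions. -/

namespace Pool.Agent.K9h35.SG

open Pool.Agent.W649.ZL Pool.Agent.N309.LO Pool.Agent.N309.PD

universe u v w z y

theorem exists_ginv {V W : Type*} [AddCommGroup V] [Module ℂ V] [AddCommGroup W] [Module ℂ W]
    (f : V →ₗ[ℂ] W) : ∃ g : W →ₗ[ℂ] V, ∀ x, f (g (f x)) = f x := by
  obtain ⟨s, hs⟩ := LinearMap.exists_rightInverse_of_surjective f.rangeRestrict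
    (LinearMap.range_rangeRestrict f)
  obtain ⟨g, hg⟩ := LinearMap.exists_extend s
  refine ⟨g, fun x => ?_⟩
  have h1 : g (f x) = s (f.rangeRestrict x) := by
    rw [← hg]
    rfl
  have h2 := LinearMap.congr_fun hs (f.rangeRestrict x)
  rw [h1]
  exact congrArg Subtype.val h2

theorem exists_ginv_matrix {J : Type v} [Fintype J] [DecidableEq J] {L : Type w} [Fintype L]
    [DecidableEq L] (b : Matrix L J ℂ) : ∃ s : Matrix J L ℂ, b * s * b = b := by
  obtain ⟨g, hg⟩ := exists_ginv (Matrix.toLin' b)
  refine ⟨LinearMap.toMatrix' g, ?_⟩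
  apply (Matrix.toLin' : Matrix L J ℂ ≃ₗ[ℂ] _).injective
  apply LinearMap.ext
  intro x
  rw [Matrix.toLin'_mul, Matrix.toLin'_mul, Matrix.toLin'_toMatrix']
  exact hg x

section
variable {G : Type u} [Group G] {X : Type y} [MulAction G X]

/-- the orbit of a point -/
def oq (x : X) : MulAction.orbitRel.Quotient G X := Quotient.mk _ x

theorem exists_coord (x : X) : ∃ g : G, g • (Quotient.out (oq (G := G) x)) = x := by
  have h : (MulAction.orbitRel G X).r (Quotient.out (oq (G := G) x)) x :=
    Quotient.exact (Quotient.out_eq (oq (G := G) x))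
  obtain ⟨g, hg⟩ := (MulAction.orbitRel G X).symm h
  exact ⟨g, hg⟩

/-- the coordinate of a point in its orbit -/
noncomputable def gc (G : Type u) [Group G] {X : Type y} [MulAction G X] (x : X) : G :=
  (exists_coord (G := G) x).choose

theorem gc_spec (x : X) : gc G x • (Quotient.out (oq (G := G) x)) = x :=
  (exists_coord (G := G) x).choose_spec

theorem oq_smul (g : G) (x : X) : oq (G := G) (g • x) = oq (G := G) x :=
  Quotient.sound ⟨g, rfl⟩

theorem free_coord (hf : ∀ (g : G) (x : X), g • x = x → g = 1) {a b : X} {t : G} (h : a = t • b) :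
    oq (G := G) a = oq (G := G) b ∧ t = gc G a * (gc G b)⁻¹ := by
  have h1 : oq (G := G) a = oq (G := G) b := by rw [h]; exact oq_smul t b
  refine ⟨h1, ?_⟩
  have h2 := gc_spec (G := G) a
  have h3 := gc_spec (G := G) b
  rw [h1] at h2
  set x0 := Quotient.out (oq (G := G) b) with hx0
  have h4 : ((gc G a)⁻¹ * t * gc G b) • x0 = x0 := by
    rw [mul_smul, h3, mul_smul, ← h, inv_smul_eq_iff, h2]
  have h5 := hf _ _ h4
  have h6 : t = gc G a * ((gc G a)⁻¹ * t * gc G b) * (gc G b)⁻¹ := by group
  rw [h6, h5, mul_one]

end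

section
variable {G : Type u} [Group G] {X : Type y} [MulAction G X] [LinearOrder X]
variable {J : Type v} [Fintype J] [DecidableEq J] {L : Type w} [Fintype L] [DecidableEq L]

/-- for a free action there are level preserving generalised inverses -/
theorem gi_free (hf : ∀ (g : G) (x : X), g • x = x → g = 1) (u : L → X) (w : J → X)
    (A : Matrix L J (MonoidAlgebra ℂ G)) : HasGI u w A := by
  classical
  set B := lvM u w A with hB
  set b : Matrix L J ℂ := fun l j => (B l j).coeff (gc G (u l) * (gc G (w j))⁻¹) with hb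
  have hBb : ∀ l j, B l j = MonoidAlgebra.single (gc G (u l) * (gc G (w j))⁻¹) (b l j) := by
    intro l j
    apply MonoidAlgebra.coeff_injective
    ext g
    rw [MonoidAlgebra.coeff_single, Finsupp.single_apply]
    by_cases hg : gc G (u l) * (gc G (w j))⁻¹ = g
    · rw [if_pos hg, ← hg]
    · rw [if_neg hg]
      by_contra hne
      exact hg (free_coord hf (lvM_rl u w A l j g hne)).2.symm
  have hb0 : ∀ l j, oq (G := G) (u l) ≠ oq (G := G) (w j) → b l j = 0 := by
    intro l j hne
    by_contra h
    exact hne (free_coord hf (lvM_rl u w A l j _ h)).1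
  obtain ⟨s, hs⟩ := exists_ginv_matrix b
  set s' : Matrix J L ℂ := fun j l => if oq (G := G) (w j) = oq (G := G) (u l) then s j l else 0
    with hs'
  have key : ∀ (t : Matrix J L ℂ) l j,
      (b * t * b) l j = ∑ l', ∑ j', b l j' * t j' l' * b l' j := by
    intro t l j
    rw [Matrix.mul_apply]
    refine Finset.sum_congr rfl fun l' _ => ?_
    rw [Matrix.mul_apply, Finset.sum_mul]
  have hs1 : ∀ l j, ∑ l', ∑ j', b l j' * s j' l' * b l' j = b l j := by
    intro l j
    rw [← key s, hs]
  have hs'' : ∀ l j, (b * s' * b) l j = b l j := by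
    intro l j
    rw [key s']
    by_cases hlj : oq (G := G) (u l) = oq (G := G) (w j)
    · rw [← hs1 l j]
      refine Finset.sum_congr rfl fun l' _ => Finset.sum_congr rfl fun j' _ => ?_
      by_cases h1 : oq (G := G) (u l) = oq (G := G) (w j')
      · by_cases h2 : oq (G := G) (u l') = oq (G := G) (w j)
        · have h3 : s' j' l' = s j' l' := by
            rw [hs']
            exact if_pos (by rw [← h1, h2, hlj])
          rw [h3]
        · rw [hb0 l' j h2, mul_zero, mul_zero]
      · rw [hb0 l j' h1, zero_mul, zero_mul, zero_mul, zero_mul]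
    · rw [hb0 l j hlj]
      apply Finset.sum_eq_zero
      intro l' _
      apply Finset.sum_eq_zero
      intro j' _
      by_cases h1 : oq (G := G) (u l) = oq (G := G) (w j')
      · by_cases h2 : oq (G := G) (u l') = oq (G := G) (w j)
        · have h3 : s' j' l' = 0 := by
            rw [hs']
            exact if_neg (fun h => hlj (by rw [h1, h, h2]))
          rw [h3, mul_zero, zero_mul]
        · rw [hb0 l' j h2, mul_zero]
      · rw [hb0 l j' h1, zero_mul, zero_mul]
  set S : Matrix J L (MonoidAlgebra ℂ G) :=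
    fun j l => MonoidAlgebra.single (gc G (w j) * (gc G (u l))⁻¹) (s' j l) with hS
  refine ⟨S, ?_, ?_⟩
  · intro j l g hg
    rw [hS, MonoidAlgebra.coeff_single, Finsupp.single_apply] at hg
    by_cases h1 : gc G (w j) * (gc G (u l))⁻¹ = g
    · by_cases h2 : oq (G := G) (w j) = oq (G := G) (u l)
      · rw [← h1, mul_smul]
        have h3 := gc_spec (G := G) (w j)
        have h4 := gc_spec (G := G) (u l)
        have h5 : (gc G (u l))⁻¹ • u l = Quotient.out (oq (G := G) (u l)) := by
          rw [inv_smul_eq_iff, h4]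
        rw [h5, ← h2, h3]
      · rw [if_pos h1] at hg
        exact absurd (if_neg h2) hg
    · rw [if_neg h1] at hg
      exact absurd rfl hg
  · funext l j
    rw [Matrix.mul_apply]
    have h1 : ∀ l', (B * S) l l' * B l' j
        = MonoidAlgebra.single (gc G (u l) * (gc G (w j))⁻¹) ((b * s') l l' * b l' j) := by
      intro l'
      rw [Matrix.mul_apply, Matrix.mul_apply, Finset.sum_mul, Finset.sum_mul]
      rw [← MonoidAlgebra.singleAddHom_apply, map_sum]
      refine Finset.sum_congr rfl fun j' _ => ?_
      rw [hBb l j', hBb l' j, hS, MonoidAlgebra.single_mul_single, MonoidAlgebra.single_mul_single,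
        MonoidAlgebra.singleAddHom_apply]
      congr 1
      group
    refine (Finset.sum_congr rfl fun l' _ => h1 l').trans ?_
    change _ = B l j
    rw [hBb l j]
    simp only [← MonoidAlgebra.singleAddHom_apply]
    rw [← map_sum]
    congr 1
    rw [← Matrix.mul_apply, hs'']

end

end Pool.Agent.K9h35.SG
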