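import Pool.Agent.N309.PD.Cone
import Pool.Agent.N309.PD.Dual

set_option autoImplicit false
set_option linter.unusedSectionVars false

open scoped Matrix

/-! Chains with levels in an ordered `G`-set. -/

namespace Pool.Agent.K9h35.SG

open Pool.Agent.W649.ZL Pool.Agent.N309.LO Pool.Agent.N309.PD

universe u v w z y

section
variable {G : Type u} [Group G] {X : Type y} [MulAction G X]
variable {J : Type v} [Fintype J] [DecidableEq J] {L : Type w} [Fintype L] [DecidableEq L]
  {M : Type z} [Fintype M] [DecidableEq M]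

/-- all terms of the row vector `x` have levels with the property `P` -/
def Ch (P : X → Prop) (w : J → X) (x : J → MonoidAlgebra ℂ G) : Prop :=
  ∀ j g, (x j).coeff g ≠ 0 → P (g • w j)

/-- the levels of the terms of the rows of the matrix are related to the levels of the rows -/
def Rl (R : X → X → Prop) (u : L → X) (w : J → X) (D : Matrix L J (MonoidAlgebra ℂ G)) : Prop :=
  ∀ l, Ch (R (u l)) w (D l)

theorem Ch.mono {P Q : X → Prop} {w : J → X} {x : J → MonoidAlgebra ℂ G} (h : Ch P w x)
    (hPQ : ∀ a, P a → Q a) : Ch Q w x := fun j g hg => hPQ _ (h j g hg)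

theorem Ch.zero (P : X → Prop) (w : J → X) : Ch P w (0 : J → MonoidAlgebra ℂ G) := by
  intro j g h
  exact absurd rfl h

theorem Ch.add {P : X → Prop} {w : J → X} {x x' : J → MonoidAlgebra ℂ G} (h : Ch P w x)
    (h' : Ch P w x') : Ch P w (x + x') := by
  intro j g hg
  rw [Pi.add_apply, MonoidAlgebra.coeff_add, Finsupp.add_apply] at hg
  by_cases h1 : (x j).coeff g = 0
  · by_cases h2 : (x' j).coeff g = 0
    · rw [h1, h2, add_zero] at hg
      exact absurd rfl hg
    · exact h' j g h2
  · exact h j g h1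

theorem Ch.neg {P : X → Prop} {w : J → X} {x : J → MonoidAlgebra ℂ G} (h : Ch P w x) :
    Ch P w (-x) := by
  intro j g hg
  rw [Pi.neg_apply, MonoidAlgebra.coeff_neg, Finsupp.neg_apply] at hg
  exact h j g fun h0 => hg (by rw [h0, neg_zero])

theorem Ch.sub {P : X → Prop} {w : J → X} {x x' : J → MonoidAlgebra ℂ G} (h : Ch P w x)
    (h' : Ch P w x') : Ch P w (x - x') := by
  rw [sub_eq_add_neg]
  exact h.add h'.neg

theorem Ch.sum {ι : Type*} {P : X → Prop} {w : J → X} (s : Finset ι)
    (f : ι → J → MonoidAlgebra ℂ G) (h : ∀ i ∈ s, Ch P w (f i)) : Ch P w (∑ i ∈ s, f i) := by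
  classical
  induction s using Finset.induction_on with
  | empty => exact Ch.zero P w
  | insert a s ha ih =>
    rw [Finset.sum_insert ha]
    exact (h a (Finset.mem_insert_self a s)).add
      (ih fun i hi => h i (Finset.mem_insert_of_mem hi))

theorem Ch.single {P : X → Prop} {w : J → X} {j : J} {g : G} (c : ℂ) (h : P (g • w j)) :
    Ch P w (Pi.single j (MonoidAlgebra.single g c) : J → MonoidAlgebra ℂ G) := by
  classical
  intro i h' hne
  by_cases hi : i = j
  · subst hi
    rw [Pi.single_eq_same, MonoidAlgebra.coeff_single, Finsupp.single_apply] at hne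
    by_cases hg : g = h'
    · rw [← hg]; exact h
    · rw [if_neg hg] at hne
      exact absurd rfl hne
  · rw [Pi.single_eq_of_ne hi] at hne
    exact absurd rfl hne

theorem coeff_mul_ne {a b : MonoidAlgebra ℂ G} {g : G} (h : (a * b).coeff g ≠ 0) :
    ∃ s t, a.coeff s ≠ 0 ∧ b.coeff t ≠ 0 ∧ s * t = g := by
  classical
  have h1 := MonoidAlgebra.support_coeff_mul_subset a b (Finsupp.mem_support_iff.2 h)
  obtain ⟨s, hs, t, ht, e⟩ := Finset.mem_mul.1 h1
  exact ⟨s, t, Finsupp.mem_support_iff.1 hs, Finsupp.mem_support_iff.1 ht, e⟩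

theorem coeff_sum_ne {ι : Type*} {s : Finset ι} {f : ι → MonoidAlgebra ℂ G} {g : G}
    (h : (∑ i ∈ s, f i).coeff g ≠ 0) : ∃ i ∈ s, (f i).coeff g ≠ 0 := by
  by_contra hcon
  push Not at hcon
  apply h
  rw [MonoidAlgebra.coeff_sum, Finsupp.finsetSum_apply]
  exact Finset.sum_eq_zero hcon

theorem Ch.vecMul {P Q : X → Prop} {R : X → X → Prop} (hR : ∀ (g : G) a b, R a b → R (g • a) (g • b))
    (hP : ∀ a b, P a → R a b → Q b) {u : L → X} {w : J → X} {D : Matrix L J (MonoidAlgebra ℂ G)}
    (hD : Rl R u w D) {x : L → MonoidAlgebra ℂ G} (hx : Ch P u x) : Ch Q w (x ᵥ* D) := by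
  intro j g hg
  have h1 : (x ᵥ* D) j = ∑ l, x l * D l j := rfl
  rw [h1] at hg
  obtain ⟨l, -, hl⟩ := coeff_sum_ne hg
  obtain ⟨s, t, hs, ht, rfl⟩ := coeff_mul_ne hl
  have h2 := hR s _ _ (hD l j t ht)
  rw [smul_smul] at h2
  exact hP _ _ (hx l s hs) h2

theorem Rl.mul {R S T : X → X → Prop} (hS : ∀ (g : G) a b, S a b → S (g • a) (g • b))
    (hT : ∀ a b c, R a b → S b c → T a c) {u : L → X} {w : J → X} {v : M → X}
    {A : Matrix L J (MonoidAlgebra ℂ G)} {B : Matrix J M (MonoidAlgebra ℂ G)}
    (hA : Rl R u w A) (hB : Rl S w v B) : Rl T u v (A * B) := by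
  intro l
  have h1 : (A * B) l = A l ᵥ* B := rfl
  rw [h1]
  exact Ch.vecMul hS (hT (u l)) hB (hA l)

open Classical in
/-- the part of a row vector with levels in `P` -/
noncomputable def part (P : X → Prop) (w : J → X) (x : J → MonoidAlgebra ℂ G) :
    J → MonoidAlgebra ℂ G :=
  fun j => MonoidAlgebra.ofCoeff ((x j).coeff.filter fun g => P (g • w j))

open Classical in
theorem part_coeff (P : X → Prop) (w : J → X) (x : J → MonoidAlgebra ℂ G) (j : J) (g : G) :
    (part P w x j).coeff g = if P (g • w j) then (x j).coeff g else 0 := by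
  unfold part
  rw [MonoidAlgebra.coeff_ofCoeff, Finsupp.filter_apply]

theorem part_of_pos {P : X → Prop} {w : J → X} {x : J → MonoidAlgebra ℂ G} {j : J} {g : G}
    (h : P (g • w j)) : (part P w x j).coeff g = (x j).coeff g := by
  rw [part_coeff, if_pos h]

theorem part_of_neg {P : X → Prop} {w : J → X} {x : J → MonoidAlgebra ℂ G} {j : J} {g : G}
    (h : ¬ P (g • w j)) : (part P w x j).coeff g = 0 := by
  rw [part_coeff, if_neg h]

theorem part_ch (P : X → Prop) (w : J → X) (x : J → MonoidAlgebra ℂ G) : Ch P w (part P w x) := by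
  intro j g hg
  by_contra h
  exact hg (part_of_neg h)

theorem row_ext {x x' : J → MonoidAlgebra ℂ G} (h : ∀ j g, (x j).coeff g = (x' j).coeff g) :
    x = x' := by
  funext j
  apply MonoidAlgebra.coeff_injective
  ext g
  exact h j g

theorem part_self {P : X → Prop} {w : J → X} {x : J → MonoidAlgebra ℂ G} (h : Ch P w x) :
    part P w x = x := by
  apply row_ext
  intro j g
  by_cases hP : P (g • w j)
  · exact part_of_pos hP
  · rw [part_of_neg hP]
    by_contra hne
    exact hP (h j g (Ne.symm hne))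

theorem part_eq_zero {P Q : X → Prop} {w : J → X} {x : J → MonoidAlgebra ℂ G} (h : Ch Q w x)
    (hQ : ∀ a, Q a → ¬ P a) : part P w x = 0 := by
  apply row_ext
  intro j g
  by_cases hP : P (g • w j)
  · rw [part_of_pos hP]
    by_contra hne
    exact hQ _ (h j g hne) hP
  · rw [part_of_neg hP]
    rfl

theorem part_add (P : X → Prop) (w : J → X) (x x' : J → MonoidAlgebra ℂ G) :
    part P w (x + x') = part P w x + part P w x' := by
  apply row_ext
  intro j g
  rw [Pi.add_apply, MonoidAlgebra.coeff_add, Finsupp.add_apply]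
  by_cases hP : P (g • w j)
  · rw [part_of_pos hP, part_of_pos hP, part_of_pos hP]
    rfl
  · rw [part_of_neg hP, part_of_neg hP, part_of_neg hP, add_zero]

/-- the complement of a part -/
theorem sub_part_ch {P Q R : X → Prop} {w : J → X} {x : J → MonoidAlgebra ℂ G} (h : Ch Q w x)
    (hR : ∀ a, Q a → ¬ P a → R a) : Ch R w (x - part P w x) := by
  intro j g hg
  rw [Pi.sub_apply, MonoidAlgebra.coeff_sub, Finsupp.sub_apply] at hg
  by_cases hP : P (g • w j)
  · rw [part_of_pos hP, sub_self] at hg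
    exact absurd rfl hg
  · rw [part_of_neg hP, sub_zero] at hg
    exact hR _ (h j g hg) hP

/-- the level preserving part of a matrix -/
noncomputable def lvM (u : L → X) (w : J → X) (D : Matrix L J (MonoidAlgebra ℂ G)) :
    Matrix L J (MonoidAlgebra ℂ G) :=
  fun l => part (fun a => u l = a) w (D l)

theorem lvM_rl (u : L → X) (w : J → X) (D : Matrix L J (MonoidAlgebra ℂ G)) :
    Rl (fun a b => a = b) u w (lvM u w D) := fun l => part_ch _ w (D l)

theorem eq_smul (g : G) (a b : X) (h : a = b) : g • a = g • b := by rw [h]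

end

section
variable {G : Type u} [Group G] {X : Type y} [MulAction G X] [LinearOrder X]
variable {J : Type v} [Fintype J] [DecidableEq J] {L : Type w} [Fintype L] [DecidableEq L]
  {M : Type z} [Fintype M] [DecidableEq M]

theorem sub_lvM_rl {u : L → X} {w : J → X} {D : Matrix L J (MonoidAlgebra ℂ G)}
    (hD : Rl (fun a b => a ≤ b) u w D) : Rl (fun a b => a < b) u w (D - lvM u w D) := by
  intro l
  exact sub_part_ch (hD l) fun a h1 h2 => lt_of_le_of_ne h1 h2

/-- for chains with levels at least `x`, the boundary of the part at `x` is the part of the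
boundary -/
theorem part_vecMul (hX : OrdInv G X) {u : L → X} {w : J → X} {D : Matrix L J (MonoidAlgebra ℂ G)}
    (hD : Rl (fun a b => a ≤ b) u w D) {x : X} {c : L → MonoidAlgebra ℂ G}
    (hc : Ch (fun a => x ≤ a) u c) :
    part (fun a => x = a) w (c ᵥ* D) = part (fun a => x = a) u c ᵥ* lvM u w D := by
  set c0 := part (fun a => x = a) u c with hc0
  have h0 : Ch (fun a => x = a) u c0 := part_ch _ _ _
  have h1 : Ch (fun a => x < a) u (c - c0) :=
    sub_part_ch hc fun a h2 h3 => lt_of_le_of_ne h2 h3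
  have h2 : Ch (fun a => x < a) w ((c - c0) ᵥ* D) :=
    Ch.vecMul (R := fun a b => a ≤ b) hX (fun a b h3 h4 => lt_of_lt_of_le h3 h4) hD h1
  have h3 : Ch (fun a => x < a) w (c0 ᵥ* (D - lvM u w D)) :=
    Ch.vecMul (R := fun a b => a < b) (fun g a b h => OrdInv.lt hX g h)
      (fun a b h3 h4 => by rw [h3]; exact h4) (sub_lvM_rl hD) h0
  have h4 : Ch (fun a => x = a) w (c0 ᵥ* lvM u w D) :=
    Ch.vecMul (R := fun a b => a = b) eq_smul (fun a b h3 h4 => h3.trans h4) (lvM_rl u w D) h0
  have e : c ᵥ* D = c0 ᵥ* lvM u w D + ((c - c0) ᵥ* D + c0 ᵥ* (D - lvM u w D)) := by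
    rw [Matrix.sub_vecMul, Matrix.vecMul_sub]
    abel
  rw [e, part_add, part_self h4, part_eq_zero (h2.add h3) (fun a h5 h6 => h5.ne h6), add_zero]

end

end Pool.Agent.K9h35.SG
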