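import Pool.Agent.K9h35.SG.Lev

set_option autoImplicit false
set_option linter.unusedSectionVars false

open scoped Matrix

/-! Lifting of cycles of the graded complex, generalised inverses. -/

namespace Pool.Agent.K9h35.SG

open Pool.Agent.W649.ZL Pool.Agent.N309.LO Pool.Agent.N309.PD

universe u v w z y

section
variable {G : Type u} [Group G] {X : Type y} [MulAction G X] [LinearOrder X]
variable {J : Type v} [Fintype J] [DecidableEq J] {L : Type w} [Fintype L] [DecidableEq L]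
  {M : Type z} [Fintype M] [DecidableEq M]

/-- every chain with levels in `P x` which is a boundary is the boundary of a chain with levels in
`P x` -/
def Fills (P : X → X → Prop) (u : L → X) (w : J → X) (D : Matrix L J (MonoidAlgebra ℂ G)) : Prop :=
  ∀ x (c : J → MonoidAlgebra ℂ G), Ch (P x) w c → (∃ y, y ᵥ* D = c) →
    ∃ y, Ch (P x) u y ∧ y ᵥ* D = c

theorem one_rl (w : J → X) :
    Rl (fun a b => a = b) w w (1 : Matrix J J (MonoidAlgebra ℂ G)) := by
  classical
  intro l j g hg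
  by_cases h : l = j
  · subst h
    rw [Matrix.one_apply_eq, MonoidAlgebra.one_def, MonoidAlgebra.coeff_single,
      Finsupp.single_apply] at hg
    by_cases h1 : (1 : G) = g
    · rw [← h1]
      exact (one_smul G _).symm
    · rw [if_neg h1] at hg
      exact absurd rfl hg
  · rw [Matrix.one_apply_ne h] at hg
    exact absurd rfl hg

theorem Rl.mono {R S : X → X → Prop} {u : L → X} {w : J → X}
    {D : Matrix L J (MonoidAlgebra ℂ G)} (h : Rl R u w D) (hRS : ∀ a b, R a b → S a b) :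
    Rl S u w D := fun l => (h l).mono fun a => hRS _ a

theorem Rl.sub {R : X → X → Prop} {u : L → X} {w : J → X}
    {D D' : Matrix L J (MonoidAlgebra ℂ G)} (h : Rl R u w D) (h' : Rl R u w D') :
    Rl R u w (D - D') := fun l => (h l).sub (h' l)

theorem lvM_mul_lvM (hX : OrdInv G X) {u : L → X} {w : J → X} {v : M → X}
    {A : Matrix L J (MonoidAlgebra ℂ G)} {B : Matrix J M (MonoidAlgebra ℂ G)}
    (hA : Rl (fun a b => a ≤ b) u w A) (hB : Rl (fun a b => a ≤ b) w v B) (h : A * B = 0) :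
    lvM u w A * lvM w v B = 0 := by
  funext l
  change part _ w (A l) ᵥ* lvM w v B = 0
  rw [← part_vecMul hX hB (hA l)]
  have h1 : A l ᵥ* B = 0 := by
    have := congrFun h l
    exact this
  rw [h1]
  exact part_self (Ch.zero _ _)

/-- a level preserving generalised inverse -/
def HasGI (u : L → X) (w : J → X) (D : Matrix L J (MonoidAlgebra ℂ G)) : Prop :=
  ∃ S : Matrix J L (MonoidAlgebra ℂ G), Rl (fun a b => a = b) w u S ∧
    lvM u w D * S * lvM u w D = lvM u w D

/-- The kernels of the maps from the homology of the open half-spaces to that of the closed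
half-spaces, in the degree of the rows of length `J`, are generated by the boundaries of the
chains `e s` with levels at least `x s`. -/
def KGen (T : Type*) [Fintype T] (u : L → X) (w : J → X)
    (D : Matrix L J (MonoidAlgebra ℂ G)) : Prop :=
  ∃ (x : T → X) (e : Matrix T L (MonoidAlgebra ℂ G)), Rl (fun a b => a ≤ b) x u e ∧
    ∀ (z : X) (b : L → MonoidAlgebra ℂ G), Ch (fun a => z ≤ a) u b →
      Ch (fun a => z < a) w (b ᵥ* D) → ∃ α : T → MonoidAlgebra ℂ G, Ch (fun a => z = a) x α ∧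
        ∃ y, Ch (fun a => z < a) u y ∧ y ᵥ* D = (b - α ᵥ* e) ᵥ* D

/-- the kernels of these maps vanish -/
def NoKer (u : L → X) (w : J → X) (D : Matrix L J (MonoidAlgebra ℂ G)) : Prop :=
  ∀ (z : X) (b : L → MonoidAlgebra ℂ G), Ch (fun a => z ≤ a) u b →
    Ch (fun a => z < a) w (b ᵥ* D) → ∃ y, Ch (fun a => z < a) u y ∧ y ᵥ* D = b ᵥ* D

theorem vecMul_fin_zero (α : Fin 0 → MonoidAlgebra ℂ G)
    (e : Matrix (Fin 0) L (MonoidAlgebra ℂ G)) : α ᵥ* e = 0 := by
  funext j
  change ∑ i : Fin 0, α i * e i j = 0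
  rw [Fin.sum_univ_zero]

theorem NoKer.kgen {u : L → X} {w : J → X} {D : Matrix L J (MonoidAlgebra ℂ G)}
    (h : NoKer u w D) : KGen (Fin 0) u w D := by
  refine ⟨fun i => i.elim0, fun i => i.elim0, fun i => i.elim0, ?_⟩
  intro z b hb hb'
  obtain ⟨y, hy, hy'⟩ := h z b hb hb'
  refine ⟨fun i => i.elim0, fun i => i.elim0, y, hy, ?_⟩
  have e : (fun i : Fin 0 => (i.elim0 : MonoidAlgebra ℂ G)) ᵥ*
      (fun i : Fin 0 => (i.elim0 : L → MonoidAlgebra ℂ G) : Matrix (Fin 0) L (MonoidAlgebra ℂ G))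
      = 0 := vecMul_fin_zero _ _
  rw [hy', e, sub_zero]

/-- cycles of the graded complex are lifted to cycles, up to the generators -/
theorem lift_gen (hX : OrdInv G X) {u : L → X} {w : J → X} {A : Matrix L J (MonoidAlgebra ℂ G)}
    (hA : Rl (fun a b => a ≤ b) u w A) (S : Matrix J L (MonoidAlgebra ℂ G))
    (hS : Rl (fun a b => a = b) w u S) (hBSB : lvM u w A * S * lvM u w A = lvM u w A)
    {T : Type*} [Fintype T] [DecidableEq T] (hfill : KGen T u w A) :
    ∃ (Z : Matrix L L (MonoidAlgebra ℂ G)) (Λ : Matrix L T (MonoidAlgebra ℂ G))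
      (c : Matrix T L (MonoidAlgebra ℂ G)), Z * A = 0 ∧ Rl (fun a b => a ≤ b) u u Z ∧
      lvM u u Z = 1 - lvM u w A * S - Λ * c := by
  set B := lvM u w A with hB
  set P : Matrix L L (MonoidAlgebra ℂ G) := 1 - B * S with hP
  have hPr : Rl (fun a b => a = b) u u P :=
    (one_rl u).sub (Rl.mul (S := fun a b => a = b) eq_smul (fun a b c h h' => h.trans h')
      (lvM_rl u w A) hS)
  have hPB : P * B = 0 := by
    rw [hP, Matrix.sub_mul, Matrix.one_mul, hBSB, sub_self]
  obtain ⟨x, e, he, hgen⟩ := hfill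
  have h1 : ∀ l, ∃ α : T → MonoidAlgebra ℂ G, Ch (fun a => u l = a) x α ∧
      ∃ y, Ch (fun a => u l < a) u y ∧ y ᵥ* A = (P l - α ᵥ* e) ᵥ* A := by
    intro l
    apply hgen (u l) (P l) ((hPr l).mono fun a h => h.le)
    have e : P l ᵥ* A = P l ᵥ* (A - B) := by
      have e2 : P l ᵥ* B = 0 := congrFun hPB l
      rw [Matrix.vecMul_sub, e2, sub_zero]
    rw [e]
    exact Ch.vecMul (R := fun a b => a < b) (fun g a b h => OrdInv.lt hX g h)
      (fun a b h3 h4 => by rw [h3]; exact h4) (sub_lvM_rl hA) (hPr l)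
  choose α hα y hy1 hy2 using h1
  have hαe : ∀ l, Ch (fun a => u l ≤ a) u (α l ᵥ* e) := fun l =>
    Ch.vecMul (R := fun a b => a ≤ b) hX (fun a b h3 h4 => by rw [h3]; exact h4) he (hα l)
  refine ⟨fun l => P l - α l ᵥ* e - y l, fun l => α l, lvM x u e, ?_, ?_, ?_⟩
  · funext l
    change (P l - α l ᵥ* e - y l) ᵥ* A = 0
    rw [Matrix.sub_vecMul, hy2, sub_self]
  · intro l
    exact (((hPr l).mono fun a h => h.le).sub (hαe l)).sub ((hy1 l).mono fun a h => h.le)
  · funext l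
    change part (fun a => u l = a) u (P l - α l ᵥ* e - y l) = P l - α l ᵥ* lvM x u e
    have e1 : part (fun a => u l = a) u (α l ᵥ* e) = α l ᵥ* lvM x u e := by
      rw [part_vecMul hX he ((hα l).mono fun a h => h.le), part_self (hα l)]
    have e2 : P l - α l ᵥ* e - y l = P l + -(α l ᵥ* e) + -y l := by abel
    have e3 : part (fun a => u l = a) u (-(α l ᵥ* e)) = -(α l ᵥ* lvM x u e) := by
      have h := part_add (fun a => u l = a) u (α l ᵥ* e) (-(α l ᵥ* e))
      rw [add_neg_cancel, part_self (Ch.zero _ _), e1] at h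
      exact eq_neg_of_add_eq_zero_right h.symm
    rw [e2, part_add, part_add, part_self (hPr l), e3,
      part_eq_zero (hy1 l).neg (fun a h5 h6 => h5.ne h6), add_zero, sub_eq_add_neg]

/-- cycles of the graded complex are lifted to cycles -/
theorem lift_rows (hX : OrdInv G X) {u : L → X} {w : J → X} {A : Matrix L J (MonoidAlgebra ℂ G)}
    (hA : Rl (fun a b => a ≤ b) u w A) (S : Matrix J L (MonoidAlgebra ℂ G))
    (hS : Rl (fun a b => a = b) w u S) (hBSB : lvM u w A * S * lvM u w A = lvM u w A)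
    (hfill : NoKer u w A) :
    ∃ Z : Matrix L L (MonoidAlgebra ℂ G), Z * A = 0 ∧ Rl (fun a b => a ≤ b) u u Z ∧
      lvM u u Z = 1 - lvM u w A * S := by
  obtain ⟨Z, Λ, c, h1, h2, h3⟩ := lift_gen hX hA S hS hBSB hfill.kgen
  refine ⟨Z, h1, h2, ?_⟩
  have e : Λ * c = 0 := by
    funext l
    exact vecMul_fin_zero _ _
  rw [h3, e, sub_zero]

/-- the second half: chains with given boundary -/
theorem solve_rows (hX : OrdInv G X) {u : L → X} {w : J → X} {A : Matrix L J (MonoidAlgebra ℂ G)}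
    (hA : Rl (fun a b => a ≤ b) u w A) (Z : Matrix J J (MonoidAlgebra ℂ G))
    (hZ : Rl (fun a b => a ≤ b) w w Z) (hZA : ∀ j, ∃ y, y ᵥ* A = Z j)
    (hfill : Fills (fun x a => x ≤ a) u w A) :
    ∃ S : Matrix J L (MonoidAlgebra ℂ G), Rl (fun a b => a = b) w u S ∧
      S * lvM u w A = lvM w w Z := by
  have h1 : ∀ j, ∃ c, Ch (fun a => w j ≤ a) u c ∧ c ᵥ* A = Z j := fun j =>
    hfill (w j) _ (hZ j) (hZA j)
  choose c hc1 hc2 using h1
  refine ⟨fun j => part (fun a => w j = a) u (c j), fun j => part_ch _ _ _, ?_⟩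
  funext j
  change part (fun a => w j = a) u (c j) ᵥ* lvM u w A = part (fun a => w j = a) w (Z j)
  rw [← part_vecMul hX hA (hc1 j), hc2]

/-- the induction step for generalised inverses -/
theorem gi_step (hX : OrdInv G X) {u : L → X} {w : J → X} {v : M → X}
    {A : Matrix L J (MonoidAlgebra ℂ G)} {A' : Matrix J M (MonoidAlgebra ℂ G)}
    (hA : Rl (fun a b => a ≤ b) u w A) (hA' : Rl (fun a b => a ≤ b) w v A') (h0 : A * A' = 0)
    (hex : ∀ c, c ᵥ* A' = 0 → ∃ y, y ᵥ* A = c) (hG : HasGI w v A')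
    (hf1 : NoKer w v A') (hf2 : Fills (fun x a => x ≤ a) u w A) :
    HasGI u w A := by
  obtain ⟨S', hS', hB'⟩ := hG
  obtain ⟨Z, hZ1, hZ2, hZ3⟩ := lift_rows hX hA' S' hS' hB' hf1
  obtain ⟨S, hS, hSB⟩ := solve_rows hX hA Z hZ2 (fun j => hex _ (congrFun hZ1 j)) hf2
  refine ⟨S, hS, ?_⟩
  rw [Matrix.mul_assoc, hSB, hZ3, Matrix.mul_sub, Matrix.mul_one, ← Matrix.mul_assoc,
    lvM_mul_lvM hX hA hA' h0, Matrix.zero_mul, sub_zero]

/-- degree zero: the basis chains modified by chains of higher levels -/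
theorem base_rows {w : J → X} (hub : ∀ x y : X, ∃ g : G, x < g • y)
    {A : Matrix L J (MonoidAlgebra ℂ G)}
    (φ : (J → MonoidAlgebra ℂ G) →ₗ[ℂ] ℂ) (hφ : Aug φ)
    (hA : ∀ x, (∃ y, y ᵥ* A = x) ↔ φ x = 0) :
    ∃ Z : Matrix J J (MonoidAlgebra ℂ G), (∀ j, ∃ y, y ᵥ* A = Z j) ∧
      Rl (fun a b => a ≤ b) w w Z ∧ lvM w w Z = 1 := by
  obtain ⟨χ, hχ⟩ := hφ.exists_char
  obtain ⟨j0, hj0⟩ : ∃ j, φ (Pi.single j 1) ≠ 0 := by
    by_contra hcon
    push Not at hcon
    apply hφ.ne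
    apply LinearMap.ext
    intro x
    rw [phi_eq χ hχ x]
    apply Finset.sum_eq_zero
    intro j _
    rw [hcon, mul_zero]
  have h1 : ∀ j, ∃ c : J → MonoidAlgebra ℂ G, Ch (fun a => w j < a) w c ∧
      φ c = φ ((1 : Matrix J J (MonoidAlgebra ℂ G)) j) := by
    intro j
    obtain ⟨g, hg⟩ := hub (w j) (w j0)
    have hne : χ g * φ (Pi.single j0 1) ≠ 0 := by
      apply mul_ne_zero _ hj0
      intro h
      have h2 := map_mul χ g g⁻¹
      rw [mul_inv_cancel, map_one, h, zero_mul] at h2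
      exact one_ne_zero h2
    have e : φ (Pi.single j0 (MonoidAlgebra.single g 1)) = χ g * φ (Pi.single j0 1) := by
      rw [phi_single χ hχ, chi_single, one_mul]
    refine ⟨(φ ((1 : Matrix J J (MonoidAlgebra ℂ G)) j) / (χ g * φ (Pi.single j0 1))) •
      (Pi.single j0 (MonoidAlgebra.single g 1)), ?_, ?_⟩
    · rw [← Pi.single_smul, MonoidAlgebra.smul_single]
      exact Ch.single _ hg
    · rw [map_smul, e, smul_eq_mul, div_mul_cancel₀ _ hne]
  choose c hc1 hc2 using h1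
  refine ⟨fun j => (1 : Matrix J J (MonoidAlgebra ℂ G)) j - c j, ?_, ?_, ?_⟩
  · intro j
    rw [hA, map_sub, hc2, sub_self]
  · intro j
    exact ((one_rl w j).mono fun a h => h.le).sub ((hc1 j).mono fun a h => h.le)
  · funext j
    change part (fun a => w j = a) w ((1 : Matrix J J (MonoidAlgebra ℂ G)) j - c j) = _
    rw [sub_eq_add_neg, part_add, part_self (one_rl w j),
      part_eq_zero (hc1 j).neg (fun a h5 h6 => h5.ne h6), add_zero]

/-- the generalised inverse in degree zero -/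
theorem gi_base (hX : OrdInv G X) {u : L → X} {w : J → X} (hub : ∀ x y : X, ∃ g : G, x < g • y)
    {A : Matrix L J (MonoidAlgebra ℂ G)} (hAr : Rl (fun a b => a ≤ b) u w A)
    (φ : (J → MonoidAlgebra ℂ G) →ₗ[ℂ] ℂ) (hφ : Aug φ)
    (hA : ∀ x, (∃ y, y ᵥ* A = x) ↔ φ x = 0) (hf2 : Fills (fun x a => x ≤ a) u w A) :
    HasGI u w A := by
  obtain ⟨Z, hZ1, hZ2, hZ3⟩ := base_rows (w := w) hub φ hφ hA
  obtain ⟨S, hS, hSB⟩ := solve_rows hX hAr Z hZ2 hZ1 hf2
  refine ⟨S, hS, ?_⟩
  rw [Matrix.mul_assoc, hSB, hZ3, Matrix.mul_one]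

end

end Pool.Agent.K9h35.SG
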