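import Pool.Agent.K9h35.SG.Free

set_option autoImplicit false
set_option linter.unusedSectionVars false

open scoped Matrix InnerProductSpace

/-! Vanishing of the reduced `ℓ²`-cohomology in low degrees. -/

namespace Pool.Agent.K9h35.SG

open Pool.Agent.W649.ZL Pool.Agent.N309.LO Pool.Agent.N309.PD

universe u v w z y

section
variable {G : Type u} [Group G] {X : Type y} [MulAction G X] [LinearOrder X]
variable {J : Type v} [Fintype J] [DecidableEq J] {L : Type w} [Fintype L] [DecidableEq L]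
  {M : Type z} [Fintype M] [DecidableEq M]

/-- the level inequality for matrices which do not lower the levels -/
theorem lv_le (hX : OrdInv G X) {u : L → X} {w : J → X} {D : Matrix L J (MonoidAlgebra ℂ G)}
    (hD : Rl (fun a b => a ≤ b) u w D) :
    vd (LinearMap.ker (opM D : EE G J →ₗ[ℂ] EE G L))
      ≤ vd (LinearMap.ker (opM (lvM u w D) : EE G J →ₗ[ℂ] EE G L)) := by
  apply level_le hX w u _ _ (opM_eqv _) (opM_eqv _)
  · intro j t i h
    rw [opM_dl, inv_one, mul_one] at h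
    exact hD i j t h
  · intro j t i h
    rw [opM_dl, opM_dl, inv_one, mul_one]
    exact part_of_pos h
  · intro j t i h
    rw [opM_dl, inv_one, mul_one]
    exact part_of_neg h

theorem opM_mul (A : Matrix L J (MonoidAlgebra ℂ G)) (B : Matrix J M (MonoidAlgebra ℂ G))
    (F : EE G M) : opM (A * B) F = opM A (opM B F) := by
  apply ext_cmp
  intro i
  rw [cmp_opM, cmp_opM, pr_opM]
  rfl

theorem opM_sub (A B : Matrix L J (MonoidAlgebra ℂ G)) (F : EE G J) :
    opM (A - B) F = opM A F - opM B F := by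
  apply ext_cmp
  intro i
  rw [map_sub, cmp_opM, cmp_opM, cmp_opM]
  have e : A i = (A - B) i + B i := by
    change A i = (A i - B i) + B i
    abel
  rw [e, pr_add_left, add_sub_cancel_right]

theorem opM_one (F : EE G J) : opM (1 : Matrix J J (MonoidAlgebra ℂ G)) F = F := by
  apply ext_cmp
  intro i
  rw [cmp_opM]
  have e : (1 : Matrix J J (MonoidAlgebra ℂ G)) i = Pi.single i 1 := by
    funext j
    by_cases h : i = j
    · subst h
      rw [Matrix.one_apply_eq, Pi.single_eq_same]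
    · rw [Matrix.one_apply_ne h, Pi.single_eq_of_ne (Ne.symm h)]
  rw [e, pr_single, map_one]
  rfl

theorem opM_zero' (F : EE G J) : opM (0 : Matrix L J (MonoidAlgebra ℂ G)) F = 0 := by
  rw [opM_eq_zero]
  intro i
  exact pr_zero_left F

/-- degree zero -/
theorem van_zero (hX : OrdInv G X) {w : J → X} (hub : ∀ x y : X, ∃ g : G, x < g • y)
    {A : Matrix L J (MonoidAlgebra ℂ G)}
    (φ : (J → MonoidAlgebra ℂ G) →ₗ[ℂ] ℂ) (hφ : Aug φ)
    (hA : ∀ x, (∃ y, y ᵥ* A = x) ↔ φ x = 0) (F : EE G J) (hF : opM A F = 0) : F = 0 := by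
  obtain ⟨Z, hZ1, hZ2, hZ3⟩ := base_rows (w := w) hub φ hφ hA
  have h1 := lv_le hX hZ2
  rw [hZ3] at h1
  have h2 : vd (LinearMap.ker (opM (1 : Matrix J J (MonoidAlgebra ℂ G)) : EE G J →ₗ[ℂ] EE G J))
      = 0 := by
    apply vd_ker_of_injective
    rw [injective_iff_map_eq_zero]
    intro F hF
    have h3 := opM_one (G := G) F
    exact h3.symm.trans hF
  rw [h2] at h1
  have h3 := eq_bot_of_vd_eq_zero _ (inv_ker (opM Z) (opM_eqv Z)) h1
  have h4 : F ∈ LinearMap.ker (opM Z : EE G J →ₗ[ℂ] EE G J) := by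
    change opM Z F = 0
    rw [opM_eq_zero]
    intro i
    obtain ⟨y, hy⟩ := hZ1 i
    rw [← hy, ← pr_opM, hF, pr_zero_right]
  rw [h3] at h4
  exact (Submodule.mem_bot ℂ).1 h4

/-- positive degrees -/
theorem harm_le_card (hX : OrdInv G X) {w : J → X} {u : L → X} {A : Matrix L J (MonoidAlgebra ℂ G)}
    {D : Matrix M L (MonoidAlgebra ℂ G)} (hDA : D * A = 0)
    (hA : Rl (fun a b => a ≤ b) u w A) (hGI : HasGI u w A)
    {T : Type*} [Fintype T] [DecidableEq T] (hfill : KGen T u w A)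
    (hex : ∀ x, x ᵥ* A = 0 → ∃ y, y ᵥ* D = x) :
    vd (harm (opM D) (opM A)) ≤ Fintype.card T := by
  obtain ⟨S, hS, hB⟩ := hGI
  obtain ⟨Z, Λ, c, hZ1, hZ2, hZ3⟩ := lift_gen hX hA S hS hB hfill
  set B := lvM u w A with hBdef
  have h1 : vd (LinearMap.ker (opM D : EE G L →ₗ[ℂ] EE G M))
      ≤ vd (LinearMap.ker (opM Z : EE G L →ₗ[ℂ] EE G L)) := by
    apply vd_mono
    intro F hF
    change opM Z F = 0
    rw [opM_eq_zero]
    intro i
    obtain ⟨y, hy⟩ := hex (Z i) (congrFun hZ1 i)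
    rw [← hy, ← pr_opM]
    have h : opM D F = 0 := hF
    rw [h, pr_zero_right]
  have h2 := lv_le hX hZ2
  rw [hZ3] at h2
  have h3 : vd (LinearMap.ker (opM (1 - B * S - Λ * c) : EE G L →ₗ[ℂ] EE G L))
      ≤ Fintype.card T + vd (LinearMap.range (opM B : EE G J →ₗ[ℂ] EE G L)) := by
    have h4 := rank_nullity (opM c) (opM_eqv c)
      (inv_ker (opM (1 - B * S - Λ * c)) (opM_eqv _))
      (ContinuousLinearMap.isClosed_ker (opM (1 - B * S - Λ * c)))
    have h5 := vd_le_card ((LinearMap.ker (opM (1 - B * S - Λ * c) :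
      EE G L →ₗ[ℂ] EE G L)).map (opM c : EE G L →ₗ[ℂ] EE G T))
    have h6 : vd (LinearMap.ker (opM (1 - B * S - Λ * c) : EE G L →ₗ[ℂ] EE G L)
        ⊓ LinearMap.ker (opM c : EE G L →ₗ[ℂ] EE G T))
        ≤ vd (LinearMap.range (opM B : EE G J →ₗ[ℂ] EE G L)) := by
      apply vd_mono
      rintro F ⟨hF1, hF2⟩
      have h : opM (1 - B * S - Λ * c) F = 0 := hF1
      have h' : opM c F = 0 := hF2
      rw [opM_sub, opM_sub, opM_one, opM_mul Λ, h', map_zero, sub_zero, sub_eq_zero, opM_mul] at h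
      exact ⟨opM S F, h.symm⟩
    linarith
  have h4 := ker_add_range (opM B) (opM_eqv B)
  have h5 := lv_le hX hA
  rw [vd_harm_eq _ _ (opM_eqv A) (by
    intro F
    rw [← opM_mul, hDA, opM_zero'])]
  linarith

end

section
variable {G : Type u} [Group G] {X : Type y} [MulAction G X] [LinearOrder X]
variable {J : ℕ → Type v} [∀ i, Fintype (J i)] [∀ i, DecidableEq (J i)]

/-- the `L²`-Betti number in degree `i` -/
noncomputable def vb (D : ∀ i, Matrix (J (i + 1)) (J i) (MonoidAlgebra ℂ G)) : ℕ → ℝ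
  | 0 => vd (LinearMap.ker (opM (D 0) : EE G (J 0) →ₗ[ℂ] EE G (J 1)))
  | (i + 1) => vd (harm (opM (D (i + 1))) (opM (D i)))

/-- a resolution of a one-dimensional module, exact in the degrees up to `m` -/
structure IsRes (D : ∀ i, Matrix (J (i + 1)) (J i) (MonoidAlgebra ℂ G))
    (φ : (J 0 → MonoidAlgebra ℂ G) →ₗ[ℂ] ℂ) (m : ℕ) : Prop where
  comp : ∀ i, D (i + 1) * D i = 0
  ne : φ ≠ 0
  aug : ∀ x, (∃ y, y ᵥ* D 0 = x) ↔ φ x = 0
  exact : ∀ i < m, ∀ x, x ᵥ* D i = 0 → ∃ y, y ᵥ* D (i + 1) = x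

/-- the condition for the existence of generalised inverses -/
def GICond (D : ∀ i, Matrix (J (i + 1)) (J i) (MonoidAlgebra ℂ G)) (w : ∀ i, J i → X) (k : ℕ) :
    Prop :=
  (∀ (g : G) (x : X), g • x = x → g = 1) ∨
    ((∀ i ≤ k, Fills (fun x a => x ≤ a) (w (i + 1)) (w i) (D i)) ∧
      ∀ i < k, NoKer (w (i + 1)) (w i) (D i))

/-- degree zero -/
theorem low_zero (hX : OrdInv G X) (hub : ∀ x y : X, ∃ g : G, x < g • y) {m : ℕ}
    (D : ∀ i, Matrix (J (i + 1)) (J i) (MonoidAlgebra ℂ G))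
    (φ : (J 0 → MonoidAlgebra ℂ G) →ₗ[ℂ] ℂ) (hD : IsRes D φ m) (w : J 0 → X) : vb D 0 = 0 := by
  have hφ : Aug φ := aug_of hD.ne _ hD.aug
  apply vd_ker_of_injective
  rw [injective_iff_map_eq_zero]
  exact fun F hF => van_zero hX (w := w) hub φ hφ hD.aug F hF

/-- positive degrees -/
theorem low (hX : OrdInv G X) (hub : ∀ x y : X, ∃ g : G, x < g • y) {k : ℕ}
    (D : ∀ i, Matrix (J (i + 1)) (J i) (MonoidAlgebra ℂ G))
    (φ : (J 0 → MonoidAlgebra ℂ G) →ₗ[ℂ] ℂ) (hD : IsRes D φ (k + 1))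
    (w : ∀ i, J i → X) (hw : ∀ i, Rl (fun a b => a ≤ b) (w (i + 1)) (w i) (D i))
    {T : Type*} [Fintype T] [DecidableEq T] (h1 : KGen T (w (k + 1)) (w k) (D k))
    (h2 : GICond D w k) : vb D (k + 1) ≤ Fintype.card T := by
  have hφ : Aug φ := aug_of hD.ne _ hD.aug
  have hGI : ∀ i ≤ k, HasGI (w (i + 1)) (w i) (D i) := by
    rcases h2 with hf | ⟨hf, hf'⟩
    · exact fun i _ => gi_free hf _ _ _
    · intro i
      induction i with
      | zero => exact fun h => gi_base hX hub (hw 0) φ hφ hD.aug (hf 0 h)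
      | succ i ih =>
        intro h
        exact gi_step hX (hw (i + 1)) (hw i) (hD.comp i) (hD.exact i (by omega)) (ih (by omega))
          (hf' i (by omega)) (hf (i + 1) h)
  exact harm_le_card hX (hD.comp k) (hw k) (hGI k le_rfl) h1 (hD.exact k (by omega))

end

end Pool.Agent.K9h35.SG
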