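import Pool.Agent.K9h35.SG.Cmp

set_option autoImplicit false
set_option linter.unusedSectionVars false

open scoped Matrix InnerProductSpace

/-! Twisting a resolution by a character. -/

namespace Pool.Agent.K9h35.SG

open Pool.Agent.W649.ZL Pool.Agent.N309.LO Pool.Agent.N309.PD

universe u v w z y

section
variable {G : Type u} [Group G]

/-- the algebra endomorphism which multiplies `g` by `χ g` -/
noncomputable def tw (χ : G →* ℂ) : MonoidAlgebra ℂ G →ₐ[ℂ] MonoidAlgebra ℂ G :=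
  MonoidAlgebra.lift ℂ _ G
    { toFun := fun g => MonoidAlgebra.single g (χ g)
      map_one' := by rw [map_one]; rfl
      map_mul' := fun a b => by rw [MonoidAlgebra.single_mul_single, map_mul] }

theorem tw_single (χ : G →* ℂ) (g : G) (c : ℂ) :
    tw χ (MonoidAlgebra.single g c) = MonoidAlgebra.single g (χ g * c) := by
  unfold tw
  rw [MonoidAlgebra.lift_single]
  change c • MonoidAlgebra.single g (χ g) = _
  rw [MonoidAlgebra.smul_single, smul_eq_mul, mul_comm]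

theorem tw_coeff (χ : G →* ℂ) (α : MonoidAlgebra ℂ G) (g : G) :
    (tw χ α).coeff g = χ g * α.coeff g := by
  classical
  induction α using MonoidAlgebra.induction_linear with
  | zero => rw [map_zero, MonoidAlgebra.coeff_zero, Finsupp.zero_apply, mul_zero]
  | add a b ha hb =>
    rw [map_add, MonoidAlgebra.coeff_add, Finsupp.add_apply, ha, hb, MonoidAlgebra.coeff_add,
      Finsupp.add_apply, mul_add]
  | single h c =>
    rw [tw_single, MonoidAlgebra.coeff_single, MonoidAlgebra.coeff_single, Finsupp.single_apply,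
      Finsupp.single_apply]
    by_cases hh : h = g
    · rw [if_pos hh, if_pos hh, hh]
    · rw [if_neg hh, if_neg hh, mul_zero]

theorem char_ne (χ : G →* ℂ) (g : G) : χ g ≠ 0 := by
  intro h
  have h2 := map_mul χ g g⁻¹
  rw [mul_inv_cancel, map_one, h, zero_mul] at h2
  exact one_ne_zero h2

/-- the inverse character -/
noncomputable def chI (χ : G →* ℂ) : G →* ℂ where
  toFun g := (χ g)⁻¹
  map_one' := by rw [map_one, inv_one]
  map_mul' a b := by rw [map_mul, mul_inv]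

theorem tw_tw (χ : G →* ℂ) (α : MonoidAlgebra ℂ G) : tw χ (tw (chI χ) α) = α := by
  apply MonoidAlgebra.coeff_injective
  ext g
  rw [tw_coeff, tw_coeff]
  change χ g * ((χ g)⁻¹ * _) = _
  rw [mul_inv_cancel_left₀ (char_ne χ g)]

theorem tw_tw' (χ : G →* ℂ) (α : MonoidAlgebra ℂ G) : tw (chI χ) (tw χ α) = α := by
  apply MonoidAlgebra.coeff_injective
  ext g
  rw [tw_coeff, tw_coeff]
  change (χ g)⁻¹ * (χ g * _) = _
  rw [inv_mul_cancel_left₀ (char_ne χ g)]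

section
variable {J : Type v} [Fintype J] [DecidableEq J] {L : Type w} [Fintype L] [DecidableEq L]

/-- row vectors -/
noncomputable def twR (χ : G →* ℂ) (x : J → MonoidAlgebra ℂ G) : J → MonoidAlgebra ℂ G :=
  fun j => tw χ (x j)

theorem twR_twR (χ : G →* ℂ) (x : J → MonoidAlgebra ℂ G) : twR χ (twR (chI χ) x) = x :=
  funext fun j => tw_tw χ (x j)

theorem twR_twR' (χ : G →* ℂ) (x : J → MonoidAlgebra ℂ G) : twR (chI χ) (twR χ x) = x :=
  funext fun j => tw_tw' χ (x j)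

/-- matrices -/
noncomputable def twM (χ : G →* ℂ) (D : Matrix L J (MonoidAlgebra ℂ G)) :
    Matrix L J (MonoidAlgebra ℂ G) := fun l j => tw χ (D l j)

theorem twR_vecMul (χ : G →* ℂ) (x : L → MonoidAlgebra ℂ G) (D : Matrix L J (MonoidAlgebra ℂ G)) :
    twR χ (x ᵥ* twM (chI χ) D) = twR χ x ᵥ* D := by
  funext j
  change tw χ (∑ l, x l * tw (chI χ) (D l j)) = ∑ l, tw χ (x l) * D l j
  rw [map_sum]
  refine Finset.sum_congr rfl fun l _ => ?_
  rw [map_mul, tw_tw]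

theorem twR_inj (χ : G →* ℂ) {x x' : J → MonoidAlgebra ℂ G} (h : twR χ x = twR χ x') : x = x' := by
  rw [← twR_twR' χ x, h, twR_twR' χ]

theorem twR_zero (χ : G →* ℂ) : twR χ (0 : J → MonoidAlgebra ℂ G) = 0 :=
  funext fun _ => map_zero _

variable {X : Type y} [MulAction G X]

theorem twR_ch (χ : G →* ℂ) {P : X → Prop} {w : J → X} {x : J → MonoidAlgebra ℂ G}
    (h : Ch P w x) : Ch P w (twR χ x) := by
  intro j g hg
  apply h j g
  intro h0
  apply hg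
  change (tw χ (x j)).coeff g = 0
  rw [tw_coeff, h0, mul_zero]

theorem tw_fills (χ : G →* ℂ) {P : X → X → Prop} {u : L → X} {w : J → X}
    {D : Matrix L J (MonoidAlgebra ℂ G)} (h : Fills P u w D) : Fills P u w (twM (chI χ) D) := by
  rintro x c hc ⟨y, hy⟩
  obtain ⟨y', hy1, hy2⟩ := h x (twR χ c) (twR_ch χ hc) ⟨twR χ y, by rw [← twR_vecMul, hy]⟩
  refine ⟨twR (chI χ) y', twR_ch _ hy1, ?_⟩
  apply twR_inj χ
  rw [twR_vecMul, twR_twR, hy2]

theorem twR_sub (χ : G →* ℂ) (x x' : J → MonoidAlgebra ℂ G) :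
    twR χ (x - x') = twR χ x - twR χ x' := funext fun _ => map_sub _ _ _

theorem tw_noker [LinearOrder X] (χ : G →* ℂ) {u : L → X} {w : J → X}
    {D : Matrix L J (MonoidAlgebra ℂ G)} (h : NoKer u w D) : NoKer u w (twM (chI χ) D) := by
  intro z b hb hb'
  have h1 : Ch (fun a => z < a) w (twR χ b ᵥ* D) := by
    rw [← twR_vecMul]
    exact twR_ch χ hb'
  obtain ⟨y, hy1, hy2⟩ := h z (twR χ b) (twR_ch χ hb) h1
  refine ⟨twR (chI χ) y, twR_ch _ hy1, ?_⟩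
  apply twR_inj χ
  rw [twR_vecMul, twR_vecMul, twR_twR, hy2]

theorem tw_kgen [LinearOrder X] (χ : G →* ℂ) {T : Type*} [Fintype T] {u : L → X} {w : J → X}
    {D : Matrix L J (MonoidAlgebra ℂ G)} (h : KGen T u w D) : KGen T u w (twM (chI χ) D) := by
  classical
  obtain ⟨x, e, he, hgen⟩ := h
  refine ⟨x, twM (chI χ) e, fun s => twR_ch (chI χ) (he s), ?_⟩
  intro z b hb hb'
  have h1 : Ch (fun a => z < a) w (twR χ b ᵥ* D) := by
    rw [← twR_vecMul]
    exact twR_ch χ hb'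
  obtain ⟨α, hα, y, hy1, hy2⟩ := hgen z (twR χ b) (twR_ch χ hb) h1
  refine ⟨twR (chI χ) α, twR_ch _ hα, twR (chI χ) y, twR_ch _ hy1, ?_⟩
  apply twR_inj χ
  rw [twR_vecMul, twR_vecMul, twR_twR, twR_sub, twR_vecMul, twR_twR, hy2]

end

section
variable {J : ℕ → Type v} [∀ i, Fintype (J i)] [∀ i, DecidableEq (J i)]

theorem tw_res (χ : G →* ℂ) {m : ℕ} (D : ∀ i, Matrix (J (i + 1)) (J i) (MonoidAlgebra ℂ G))
    (φ : (J 0 → MonoidAlgebra ℂ G) →ₗ[ℂ] ℂ) (hD : IsRes D φ m) (χ0 : G →* ℂ)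
    (hχ : ∀ (g : G) x, φ (gsm g x) = χ0 g * φ x) :
    ∃ φ' : (J 0 → MonoidAlgebra ℂ G) →ₗ[ℂ] ℂ, IsRes (fun i => twM (chI χ) (D i)) φ' m ∧
      ∀ (g : G) x, φ' (gsm g x) = (χ0 * χ) g * φ' x := by
  let T : (J 0 → MonoidAlgebra ℂ G) →ₗ[ℂ] (J 0 → MonoidAlgebra ℂ G) :=
    LinearMap.pi fun j => (tw χ).toLinearMap ∘ₗ LinearMap.proj j
  have hT : ∀ x, T x = twR χ x := fun x => rfl
  refine ⟨φ ∘ₗ T, ⟨?_, ?_, ?_, ?_⟩, ?_⟩
  · intro i
    funext l
    change twM (chI χ) (D (i + 1)) l ᵥ* twM (chI χ) (D i) = 0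
    apply twR_inj χ
    rw [twR_vecMul, twR_zero]
    have e : twR χ (twM (chI χ) (D (i + 1)) l) = D (i + 1) l := twR_twR χ (D (i + 1) l)
    rw [e]
    exact congrFun (hD.comp i) l
  · intro h
    apply hD.ne
    apply LinearMap.ext
    intro x
    have h1 := LinearMap.congr_fun h (twR (chI χ) x)
    change φ (twR χ (twR (chI χ) x)) = 0 at h1
    rw [twR_twR] at h1
    exact h1
  · intro x
    change _ ↔ φ (twR χ x) = 0
    rw [← hD.aug]
    constructor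
    · rintro ⟨y, hy⟩
      exact ⟨twR χ y, by rw [← twR_vecMul, hy]⟩
    · rintro ⟨y, hy⟩
      refine ⟨twR (chI χ) y, ?_⟩
      apply twR_inj χ
      rw [twR_vecMul, twR_twR, hy]
  · intro i hi x hx
    have h1 : twR χ x ᵥ* D i = 0 := by rw [← twR_vecMul, hx, twR_zero]
    obtain ⟨y, hy⟩ := hD.exact i hi _ h1
    refine ⟨twR (chI χ) y, ?_⟩
    apply twR_inj χ
    rw [twR_vecMul, twR_twR, hy]
  · intro g x
    change φ (twR χ (gsm g x)) = χ0 g * χ g * φ (twR χ x)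
    have e : twR χ (gsm g x) = χ g • gsm g (twR χ x) := by
      funext j
      change tw χ (MonoidAlgebra.single g 1 * x j)
        = χ g • (MonoidAlgebra.single g 1 * tw χ (x j))
      rw [map_mul, tw_single, mul_one, ← smul_mul_assoc, MonoidAlgebra.smul_single, smul_eq_mul,
        mul_one]
    rw [e, map_smul, hχ, smul_eq_mul]
    ring

end

end

section
variable {G : Type u} [Group G] {X : Type y} [MulAction G X] [LinearOrder X]
variable {J : ℕ → Type v} [∀ i, Fintype (J i)] [∀ i, DecidableEq (J i)]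
  {J' : ℕ → Type w} [∀ i, Fintype (J' i)] [∀ i, DecidableEq (J' i)]

theorem exists_twist {m : ℕ} (D : ∀ i, Matrix (J (i + 1)) (J i) (MonoidAlgebra ℂ G))
    (φ : (J 0 → MonoidAlgebra ℂ G) →ₗ[ℂ] ℂ) (hD : IsRes D φ m)
    (D' : ∀ i, Matrix (J' (i + 1)) (J' i) (MonoidAlgebra ℂ G))
    (φ' : (J' 0 → MonoidAlgebra ℂ G) →ₗ[ℂ] ℂ) (hD' : IsRes D' φ' m) :
    ∃ (χ : G →* ℂ) (φ2 : (J 0 → MonoidAlgebra ℂ G) →ₗ[ℂ] ℂ),
      IsRes (fun i => twM (chI χ) (D i)) φ2 m ∧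
      ∀ i ≤ m, vb D' i ≤ vb (fun i => twM (chI χ) (D i)) i := by
  obtain ⟨χ0, hχ0⟩ := (aug_of hD.ne _ hD.aug).exists_char
  obtain ⟨χ1, hχ1⟩ := (aug_of hD'.ne _ hD'.aug).exists_char
  obtain ⟨φ2, hφ2, hχ2⟩ := tw_res (chI χ0 * χ1) D φ hD χ0 hχ0
  refine ⟨chI χ0 * χ1, φ2, hφ2, fun i hi => ?_⟩
  refine transfer D' φ' hD' _ φ2 hφ2 χ1 hχ1 ?_ i hi
  intro g x
  rw [hχ2]
  congr 1
  change χ0 g * ((χ0 g)⁻¹ * χ1 g) = χ1 g
  rw [mul_inv_cancel_left₀ (char_ne χ0 g)]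

/-- degree zero, for all resolutions -/
theorem all_zero (hX : OrdInv G X) (hub : ∀ x y : X, ∃ g : G, x < g • y) {m : ℕ}
    (D : ∀ i, Matrix (J (i + 1)) (J i) (MonoidAlgebra ℂ G))
    (φ : (J 0 → MonoidAlgebra ℂ G) →ₗ[ℂ] ℂ) (hD : IsRes D φ m) (w : J 0 → X)
    (D' : ∀ i, Matrix (J' (i + 1)) (J' i) (MonoidAlgebra ℂ G))
    (φ' : (J' 0 → MonoidAlgebra ℂ G) →ₗ[ℂ] ℂ) (hD' : IsRes D' φ' m) : vb D' 0 = 0 := by
  obtain ⟨χ, φ2, hφ2, h⟩ := exists_twist D φ hD D' φ' hD'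
  have h1 := h 0 (Nat.zero_le m)
  rw [low_zero hX hub _ φ2 hφ2 w] at h1
  exact le_antisymm h1 (vd_nonneg _)

/-- **The inequality for the `L²`-Betti numbers, computed with the resolutions of all
one-dimensional modules.** -/
theorem all_succ (hX : OrdInv G X) (hub : ∀ x y : X, ∃ g : G, x < g • y) {k : ℕ}
    (D : ∀ i, Matrix (J (i + 1)) (J i) (MonoidAlgebra ℂ G))
    (φ : (J 0 → MonoidAlgebra ℂ G) →ₗ[ℂ] ℂ) (hD : IsRes D φ (k + 1))
    (w : ∀ i, J i → X) (hw : ∀ i, Rl (fun a b => a ≤ b) (w (i + 1)) (w i) (D i))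
    {T : Type*} [Fintype T] [DecidableEq T] (h1 : KGen T (w (k + 1)) (w k) (D k))
    (h2 : GICond D w k)
    (D' : ∀ i, Matrix (J' (i + 1)) (J' i) (MonoidAlgebra ℂ G))
    (φ' : (J' 0 → MonoidAlgebra ℂ G) →ₗ[ℂ] ℂ) (hD' : IsRes D' φ' (k + 1)) :
    vb D' (k + 1) ≤ Fintype.card T := by
  obtain ⟨χ, φ2, hφ2, h⟩ := exists_twist D φ hD D' φ' hD'
  refine (h (k + 1) le_rfl).trans ?_
  exact low hX hub _ φ2 hφ2 w (fun i l => twR_ch _ (hw i l)) (tw_kgen χ h1)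
    (h2.imp_right fun h => ⟨fun i hi => tw_fills χ (h.1 i hi), fun i hi => tw_noker χ (h.2 i hi)⟩)

end

end Pool.Agent.K9h35.SG
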